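import Mathlib

/-! Combinatorics of the icosahedron (vertices = facets of the dodecahedron, faces = vertices of the
dodecahedron) and the determinant toolkit. -/

set_option autoImplicit false

open Matrix

namespace Pool.Agent.P.MP_bfbd14_co

/-- Facets of the dodecahedron. -/
inductive Vtx
  | N
  | S
  | p (a : Fin 5)
  | r (a : Fin 5)
  deriving DecidableEq, Fintype

/-- Vertices of the dodecahedron. -/
abbrev Fc := Fin 4 × Fin 5

open Vtx

/-- The three facets through a vertex, in positive cyclic order. -/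
def tri (j : Fc) : Fin 3 → Vtx :=
  ![![N, p (j.2 + 1), p j.2], ![p j.2, p (j.2 + 1), r j.2], ![p (j.2 + 1), r (j.2 + 1), r j.2],
    ![S, r j.2, r (j.2 + 1)]] j.1

/-- The neighbouring vertex along the edge leaving the facet `tri j m`. -/
def nb (j : Fc) : Fin 3 → Fc :=
  ![![(1, j.2), (0, j.2 + 4), (0, j.2 + 1)], ![(2, j.2), (2, j.2 + 4), (0, j.2)],
    ![(3, j.2), (1, j.2), (1, j.2 + 1)], ![(2, j.2), (3, j.2 + 1), (3, j.2 + 4)]] j.1

/-- The new facet at the neighbouring vertex. -/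
def opp (j : Fc) : Fin 3 → Vtx :=
  ![![r j.2, p (j.2 + 4), p (j.2 + 2)], ![r (j.2 + 1), r (j.2 + 4), N],
    ![S, p j.2, p (j.2 + 2)], ![p (j.2 + 1), r (j.2 + 2), r (j.2 + 4)]] j.1

/-- The opposite facet. -/
def anti : Vtx → Vtx
  | N => S
  | S => N
  | p a => r (a + 2)
  | r a => p (a + 3)

/-- Incidence of a facet and a vertex. -/
def inc (i : Vtx) (j : Fc) : Prop := tri j 0 = i ∨ tri j 1 = i ∨ tri j 2 = i

instance incDec (i : Vtx) (j : Fc) : Decidable (inc i j) := by unfold inc; infer_instance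

theorem inc_tri : ∀ (j : Fc) (m : Fin 3), inc (tri j m) j := by decide +kernel

theorem inc_iff (i : Vtx) (j : Fc) : inc i j ↔ ∃ m, tri j m = i := by
  constructor
  · rintro (h | h | h) <;> exact ⟨_, h⟩
  · rintro ⟨m, rfl⟩; exact inc_tri j m

theorem nb_inc : ∀ (j : Fc) (m m' : Fin 3), inc (tri j m') (nb j m) ↔ m' ≠ m := by decide +kernel

theorem opp_inc : ∀ (j : Fc) (m : Fin 3), inc (opp j m) (nb j m) := by decide +kernel

theorem opp_not_inc : ∀ (j : Fc) (m : Fin 3), ¬ inc (opp j m) j := by decide +kernel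

theorem back : ∀ (j : Fc) (m : Fin 3), ∃ m', opp (nb j m) m' = tri j m := by decide +kernel

theorem far : ∀ l i : Vtx, i ≠ l → i ≠ anti l → ∃ j m, inc l j ∧ opp j m = i := by decide +kernel

theorem opp_surj : ∀ l : Vtx, ∃ j m, opp j m = l := by decide +kernel

theorem tri_surj : ∀ l : Vtx, ∃ j m, tri j m = l := by decide +kernel

theorem tri_inj : ∀ (j : Fc) (m m' : Fin 3), tri j m = tri j m' → m = m' := by decide +kernel

theorem eq_of_inc : ∀ j j' : Fc, (∀ m, inc (tri j m) j') → j' = j := by decide +kernel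

theorem eq_or_nb : ∀ (j j' : Fc) (m : Fin 3), (∀ m', m' ≠ m → inc (tri j m') j') →
    j' = j ∨ j' = nb j m := by decide +kernel

theorem nb_rot : ∀ (j : Fc) (m : Fin 3), ∃ c : Fin 3, tri (nb j m) c = opp j m ∧
    tri (nb j m) (c + 1) = tri j (m + 2) ∧ tri (nb j m) (c + 2) = tri j (m + 1) := by
  decide +kernel

theorem nb_connected : ∀ P : Fc → Prop, (∀ j m, P j → P (nb j m)) → P (3, 0) → ∀ j, P j := by
  intro P h h0
  have h3 : ∀ a, P (3, a) := by
    have a1 : P (3, 1) := h (3, 0) 1 h0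
    have a2 : P (3, 2) := h (3, 1) 1 a1
    have a3 : P (3, 3) := h (3, 2) 1 a2
    have a4 : P (3, 4) := h (3, 3) 1 a3
    intro a
    fin_cases a <;> assumption
  have h2 : ∀ a, P (2, a) := fun a => h (3, a) 0 (h3 a)
  have h1 : ∀ a, P (1, a) := fun a => h (2, a) 1 (h2 a)
  have h0 : ∀ a, P (0, a) := fun a => h (1, a) 2 (h1 a)
  rintro ⟨k, a⟩
  fin_cases k
  · exact h0 a
  · exact h1 a
  · exact h2 a
  · exact h3 a

/-! ### Determinants -/

/-- Vectors in four-space. -/
abbrev V4 := Fin 4 → ℝ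

/-- Vectors in three-space. -/
abbrev V3 := Fin 3 → ℝ

/-- Generalised cross product of three vectors in four-space. -/
def X4 (a b c : V4) : V4 :=
  ![-(a 1 * (b 2 * c 3 - b 3 * c 2) - a 2 * (b 1 * c 3 - b 3 * c 1) + a 3 * (b 1 * c 2 - b 2 * c 1)),
    a 0 * (b 2 * c 3 - b 3 * c 2) - a 2 * (b 0 * c 3 - b 3 * c 0) + a 3 * (b 0 * c 2 - b 2 * c 0),
    -(a 0 * (b 1 * c 3 - b 3 * c 1) - a 1 * (b 0 * c 3 - b 3 * c 0) + a 3 * (b 0 * c 1 - b 1 * c 0)),
    a 0 * (b 1 * c 2 - b 2 * c 1) - a 1 * (b 0 * c 2 - b 2 * c 0) + a 2 * (b 0 * c 1 - b 1 * c 0)]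

/-- The determinant of four vectors. -/
def det4 (a b c d : V4) : ℝ := d ⬝ᵥ X4 a b c

theorem det4_def (a b c d : V4) : det4 a b c d =
    -(d 0 * (a 1 * (b 2 * c 3 - b 3 * c 2) - a 2 * (b 1 * c 3 - b 3 * c 1)
      + a 3 * (b 1 * c 2 - b 2 * c 1)))
    + d 1 * (a 0 * (b 2 * c 3 - b 3 * c 2) - a 2 * (b 0 * c 3 - b 3 * c 0)
      + a 3 * (b 0 * c 2 - b 2 * c 0))
    - d 2 * (a 0 * (b 1 * c 3 - b 3 * c 1) - a 1 * (b 0 * c 3 - b 3 * c 0)
      + a 3 * (b 0 * c 1 - b 1 * c 0))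
    + d 3 * (a 0 * (b 1 * c 2 - b 2 * c 1) - a 1 * (b 0 * c 2 - b 2 * c 0)
      + a 2 * (b 0 * c 1 - b 1 * c 0)) := by
  simp [det4, X4, dotProduct, Fin.sum_univ_four]
  ring

theorem det4_eq_det (a b c d : V4) : det4 a b c d = (Matrix.of ![a, b, c, d]).det := by
  rw [det4_def, Matrix.det_succ_row_zero]
  simp [Fin.sum_univ_succ, Matrix.det_fin_three, Matrix.submatrix, Fin.succAbove]
  ring

theorem det4_mulVec (g : Matrix (Fin 4) (Fin 4) ℝ) (a b c d : V4) :
    det4 (g *ᵥ a) (g *ᵥ b) (g *ᵥ c) (g *ᵥ d) = g.det * det4 a b c d := by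
  rw [det4_eq_det, det4_eq_det, ← Matrix.det_transpose g, mul_comm, ← Matrix.det_mul]
  congr 1
  ext i j
  fin_cases i <;> simp [Matrix.mul_apply, Matrix.mulVec, dotProduct, mul_comm]

/-- A configuration: one homogeneous vector for each facet. -/
abbrev Cfg := Vtx → V4

/-- The homogeneous vertex computed from its three facets. -/
def XU (U : Cfg) (j : Fc) : V4 := X4 (U (tri j 0)) (U (tri j 1)) (U (tri j 2))

/-- The slack determinant. -/
def D (U : Cfg) (j : Fc) (i : Vtx) : ℝ := U i ⬝ᵥ XU U j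

theorem D_eq (U : Cfg) (j : Fc) (i : Vtx) :
    D U j i = det4 (U (tri j 0)) (U (tri j 1)) (U (tri j 2)) (U i) := rfl

theorem D_rot (U : Cfg) (j : Fc) (i : Vtx) (c : Fin 3) :
    D U j i = det4 (U (tri j c)) (U (tri j (c + 1))) (U (tri j (c + 2))) (U i) := by
  rw [D_eq]
  fin_cases c
  · rfl
  · show _ = det4 (U (tri j 1)) (U (tri j 2)) (U (tri j 0)) (U i)
    simp only [det4_def]; ring
  · show _ = det4 (U (tri j 2)) (U (tri j 0)) (U (tri j 1)) (U i)
    simp only [det4_def]; ring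

theorem D_inc (U : Cfg) (j : Fc) (i : Vtx) (h : inc i j) : D U j i = 0 := by
  rw [D_eq]
  rcases h with h | h | h <;> rw [← h] <;> simp only [det4_def] <;> ring

theorem D_nb (U : Cfg) (j : Fc) (m : Fin 3) : D U j (opp j m) = D U (nb j m) (tri j m) := by
  obtain ⟨c, h1, h2, h3⟩ := nb_rot j m
  rw [D_rot U j _ m, D_rot U (nb j m) _ c, h1, h2, h3]
  simp only [det4_def]; ring

/-- Cramer identity for five vectors. -/
theorem cramer4 (a b c d e : V4) : det4 a b c d • e =
    det4 e b c d • a + det4 a e c d • b + det4 a b e d • c + det4 a b c e • d := by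
  ext k
  fin_cases k <;> simp [det4_def] <;> ring

theorem eq_zero_of_dot {a b c d y : V4} (h : det4 a b c d ≠ 0) (ha : a ⬝ᵥ y = 0)
    (hb : b ⬝ᵥ y = 0) (hc : c ⬝ᵥ y = 0) (hd : d ⬝ᵥ y = 0) : y = 0 := by
  have := congrArg (fun v => v ⬝ᵥ y) (cramer4 a b c d y)
  simp only [smul_dotProduct, add_dotProduct, ha, hb, hc, hd, smul_eq_mul, mul_zero,
    add_zero] at this
  exact dotProduct_self_eq_zero.1 ((mul_eq_zero.1 this).resolve_left h)

/-- All slack determinants are positive. -/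
def InR (U : Cfg) : Prop := ∀ j i, ¬ inc i j → 0 < D U j i

/-- Closedness: nonnegative slacks, positive local slacks and non-parallel opposite facets. -/
theorem inR_of_local (U : Cfg) (h0 : ∀ j i, 0 ≤ D U j i) (h1 : ∀ j m, 0 < D U j (opp j m))
    (h2 : ∀ l (c c' : ℝ), 0 < c → 0 < c' → c • U l ≠ c' • U (anti l)) : InR U := by
  intro j l hl
  by_contra hc
  have hz : D U j l = 0 := le_antisymm (not_lt.1 hc) (h0 j l)
  have hcr := cramer4 (U (tri j 0)) (U (tri j 1)) (U (tri j 2)) (U (opp j 0)) (U l)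
  rw [← D_eq, ← D_eq, hz, zero_smul, add_zero] at hcr
  have hD := h1 j 0
  set D0 := D U j (opp j 0)
  let α : Fin 3 → ℝ := ![det4 (U l) (U (tri j 1)) (U (tri j 2)) (U (opp j 0)),
    det4 (U (tri j 0)) (U l) (U (tri j 2)) (U (opp j 0)),
    det4 (U (tri j 0)) (U (tri j 1)) (U l) (U (opp j 0))]
  have hcr' : D0 • U l = ∑ k, α k • U (tri j k) := by
    rw [Fin.sum_univ_three]; exact hcr
  have hdot : ∀ j', D0 * D U j' l = ∑ k, α k * D U j' (tri j k) := by
    intro j'
    have := congrArg (fun v => v ⬝ᵥ XU U j') hcr'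
    simpa [D, sum_dotProduct] using this
  have hα : ∀ k, 0 ≤ α k := by
    intro k
    have h3 := hdot (nb j k)
    rw [Finset.sum_eq_single k (fun k' _ hk => by
      rw [D_inc U _ _ ((nb_inc j k k').2 hk), mul_zero]) (by simp)] at h3
    have h4 : 0 < D U (nb j k) (tri j k) := by rw [← D_nb]; exact h1 j k
    have h5 : 0 ≤ D0 * D U (nb j k) l := mul_nonneg hD.le (h0 _ _)
    rw [h3] at h5
    exact nonneg_of_mul_nonneg_left h5 h4
  have hzero : ∀ k, tri j k ≠ anti l → α k = 0 := by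
    intro k hk
    have hne : tri j k ≠ l := fun h => hl (h ▸ inc_tri j k)
    obtain ⟨j', m', hj', ho⟩ := far l _ hne hk
    have h3 := hdot j'
    rw [D_inc U _ _ hj', mul_zero] at h3
    have h4 := (Finset.sum_eq_zero_iff_of_nonneg
      (fun k _ => mul_nonneg (hα k) (h0 j' (tri j k)))).1 h3.symm k (Finset.mem_univ _)
    have h5 : 0 < D U j' (tri j k) := by rw [← ho]; exact h1 j' m'
    exact (mul_eq_zero.1 h4).resolve_right h5.ne'
  obtain ⟨j', m', ho⟩ := opp_surj l
  have hpos : 0 < D0 * D U j' l := mul_pos hD (by rw [← ho]; exact h1 j' m')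
  by_cases hex : ∃ k, tri j k = anti l
  · obtain ⟨k, hk⟩ := hex
    have hother : ∀ k', k' ≠ k → α k' = 0 := fun k' hk' =>
      hzero k' (fun h => hk' (tri_inj j _ _ (h.trans hk.symm)))
    rw [Finset.sum_eq_single k (fun k' _ hk' => by rw [hother k' hk', zero_smul]) (by simp),
      hk] at hcr'
    have hak : α k ≠ 0 := by
      intro h
      rw [hdot j', Finset.sum_eq_zero (fun k' _ => by
        by_cases hk' : k' = k
        · rw [hk', h, zero_mul]
        · rw [hother k' hk', zero_mul])] at hpos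
      exact lt_irrefl _ hpos
    exact h2 l D0 (α k) hD (lt_of_le_of_ne (hα k) hak.symm) hcr'
  · push Not at hex
    rw [hdot j', Finset.sum_eq_zero (fun k' _ => by rw [hzero k' (hex k'), zero_mul])] at hpos
    exact lt_irrefl _ hpos

end Pool.Agent.P.MP_bfbd14_co
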