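import Mathlib

set_option autoImplicit false

open Matrix

namespace Pool.Agent.P.MP_bfbd14_co

/-- A polytope: the convex hull of a finite set of points of `ℝ³`. -/
def IsPolytope (P : Set (Fin 3 → ℝ)) : Prop :=
  ∃ V : Finset (Fin 3 → ℝ), P = convexHull ℝ (V : Set (Fin 3 → ℝ))

/-- The face lattice of `P`: all exposed subsets of `P` (among them `∅` and `P`), ordered by
inclusion. -/
abbrev FaceLattice (P : Set (Fin 3 → ℝ)) : Type := {F : Set (Fin 3 → ℝ) // IsExposed ℝ P F}

/-- The regular dodecahedron: the convex hull of the twenty points `(±1, ±1, ±1)`,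
`(0, ±1/φ, ±φ)`, `(±1/φ, ±φ, 0)`, `(±φ, 0, ±1/φ)`, where `φ` is the golden ratio. -/
noncomputable def regularDodecahedron : Set (Fin 3 → ℝ) :=
  convexHull ℝ {x | ∃ s ∈ ({1, -1} : Set ℝ), ∃ t ∈ ({1, -1} : Set ℝ), ∃ u ∈ ({1, -1} : Set ℝ),
    x = ![s, t, u] ∨ x = ![0, s / Real.goldenRatio, t * Real.goldenRatio] ∨
    x = ![s / Real.goldenRatio, t * Real.goldenRatio, 0] ∨
    x = ![t * Real.goldenRatio, 0, s / Real.goldenRatio]}

/-- A realization of the dodecahedron: a polytope in `ℝ³` whose face lattice is isomorphic to that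
of the regular dodecahedron. -/
def IsDodecahedron (P : Set (Fin 3 → ℝ)) : Prop :=
  IsPolytope P ∧ Nonempty (FaceLattice P ≃o FaceLattice regularDodecahedron)

/-- Homogeneous coordinates `(x, 1)` of a point `x`. -/
def hom (x : Fin 3 → ℝ) : Fin 4 → ℝ := ![x 0, x 1, x 2, 1]

/-- `Q` is the image of `P` under the projective transformation `x ↦ (A x + b) / (c ⬝ x + α)` of an
invertible matrix `M = (A b; c α)` whose exceptional hyperplane `c ⬝ x + α = 0` misses `P`. -/
def ProjectiveStep (P Q : Set (Fin 3 → ℝ)) : Prop :=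
  ∃ M : Matrix (Fin 4) (Fin 4) ℝ, M.det ≠ 0 ∧ (∀ x ∈ P, (M *ᵥ hom x) 3 ≠ 0) ∧
    Q = (fun x (i : Fin 3) => (M *ᵥ hom x) i.castSucc / (M *ᵥ hom x) 3) '' P

/-- The face of `P` in direction `n`: the points of `P` at which `x ↦ n ⬝ x` is largest. -/
def face (P : Set (Fin 3 → ℝ)) (n : Fin 3 → ℝ) : Set (Fin 3 → ℝ) :=
  {x ∈ P | ∀ y ∈ P, n ⬝ᵥ y ≤ n ⬝ᵥ x}

/-- The outer normal vectors of facets: the nonzero `n` whose face is two-dimensional. -/
def facetNormals (P : Set (Fin 3 → ℝ)) : Set (Fin 3 → ℝ) :=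
  {n | n ≠ 0 ∧ Module.finrank ℝ (vectorSpan ℝ (face P n)) = 2}

/-- `P` and `Q` are normally equivalent: they have the same facet outer normal directions. -/
def NormalStep (P Q : Set (Fin 3 → ℝ)) : Prop := facetNormals P = facetNormals Q

end Pool.Agent.P.MP_bfbd14_co
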