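import Pool.Agent.P.MP_bfbd14_co.Regular

/-! Homogeneous configurations and the equivalence generated by projective and normal steps. -/

set_option autoImplicit false

open Matrix Topology

namespace Pool.Agent.P.MP_bfbd14_co

/-- One admissible step between realizations of the dodecahedron. -/
def Step (P Q : Set V3) : Prop :=
  IsDodecahedron P ∧ IsDodecahedron Q ∧ (ProjectiveStep P Q ∨ NormalStep P Q)

/-- Chains of admissible steps. -/
def Rel (P Q : Set V3) : Prop := Relation.ReflTransGen Step P Q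

/-- Dehomogenisation. -/
noncomputable def deh (y : V4) : V3 := fun i => y i.castSucc / y 3

theorem hom_deh {y : V4} (h : y 3 ≠ 0) : hom (deh y) = (y 3)⁻¹ • y := by
  ext k
  fin_cases k <;> simp [hom, deh, div_eq_inv_mul, h]

theorem deh_smul {c : ℝ} (hc : c ≠ 0) (y : V4) : deh (c • y) = deh y := by
  ext k
  simp [deh, mul_div_mul_left _ _ hc]

theorem deh_hom (x : V3) : deh (hom x) = x := by
  ext k
  fin_cases k <;> simp [hom, deh]

theorem hom_three (x : V3) : hom x 3 = 1 := rfl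

theorem ProjectiveStep.symm {P Q : Set V3} (h : ProjectiveStep P Q) : ProjectiveStep Q P := by
  obtain ⟨M, hM, h3, rfl⟩ := h
  have hinv : ∀ x ∈ P, M⁻¹ *ᵥ hom (deh (M *ᵥ hom x)) = ((M *ᵥ hom x) 3)⁻¹ • hom x := by
    intro x hx
    rw [hom_deh (h3 x hx), mulVec_smul, mulVec_mulVec, nonsing_inv_mul _ (Ne.isUnit hM),
      one_mulVec]
  refine ⟨M⁻¹, by simpa using hM, ?_, ?_⟩
  · rintro _ ⟨x, hx, rfl⟩
    show (M⁻¹ *ᵥ hom (deh (M *ᵥ hom x))) 3 ≠ 0
    rw [hinv x hx]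
    simpa [hom_three] using h3 x hx
  · rw [Set.image_image]
    conv_lhs => rw [← Set.image_id P]
    apply Set.image_congr
    intro x hx
    show x = deh (M⁻¹ *ᵥ hom (deh (M *ᵥ hom x)))
    rw [hinv x hx, deh_smul (inv_ne_zero (h3 x hx)), deh_hom]

theorem Step.symm {P Q : Set V3} (h : Step P Q) : Step Q P :=
  ⟨h.2.1, h.1, h.2.2.imp ProjectiveStep.symm Eq.symm⟩

theorem Rel.symm {P Q : Set V3} (h : Rel P Q) : Rel Q P := by
  induction h with
  | refl => exact Relation.ReflTransGen.refl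
  | tail _ h2 ih => exact Relation.ReflTransGen.head h2.symm ih

/-- Homogeneous facets and vertices with the incidences of the dodecahedron. -/
def HG (U : Cfg) (Y : Fc → V4) : Prop :=
  ∀ i j, (inc i j → U i ⬝ᵥ Y j = 0) ∧ (¬ inc i j → 0 < U i ⬝ᵥ Y j)

/-- All vertices are finite. -/
def Adm (U : Cfg) (Y : Fc → V4) : Prop := HG U Y ∧ ∀ j, 0 < Y j 3

/-- The polytope with the given homogeneous vertices. -/
noncomputable def poly (Y : Fc → V4) : Set V3 := convexHull ℝ (Set.range fun j => deh (Y j))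

/-- The outer normal of a homogeneous facet inequality. -/
def nrm (u : V4) : V3 := fun i => - u i.castSucc

theorem dot_eq (u : V4) {y : V4} (h : y 3 ≠ 0) : u ⬝ᵥ y = y 3 * (u 3 - nrm u ⬝ᵥ deh y) := by
  simp [dotProduct, Fin.sum_univ_four, Fin.sum_univ_three, nrm, deh]
  field_simp
  ring

theorem Adm.good {U : Cfg} {Y : Fc → V4} (h : Adm U Y) :
    Good (fun j => deh (Y j)) (fun i => nrm (U i)) (fun i => U i 3) := by
  intro i j
  have h3 := h.2 j
  have e := dot_eq (U i) h3.ne'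
  constructor
  · intro hi
    have := (h.1 i j).1 hi
    rw [e] at this
    exact (sub_eq_zero.1 ((mul_eq_zero.1 this).resolve_left h3.ne')).symm
  · intro hi
    have := (h.1 i j).2 hi
    rw [e] at this
    exact sub_pos.1 ((mul_pos_iff_of_pos_left h3).1 this)

theorem Adm.isDodecahedron {U : Cfg} {Y : Fc → V4} (h : Adm U Y) : IsDodecahedron (poly Y) :=
  (isDodecahedron_iff _).2 ⟨_, _, _, h.good, rfl⟩

theorem exists_adm_of_isDodecahedron {P : Set V3} (h : IsDodecahedron P) :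
    ∃ U Y, Adm U Y ∧ P = poly Y := by
  obtain ⟨v, a, b, hg, rfl⟩ := (isDodecahedron_iff _).1 h
  have e : ∀ i j, (![-a i 0, -a i 1, -a i 2, b i] : V4) ⬝ᵥ hom (v j) = b i - a i ⬝ᵥ v j := by
    intro i j
    simp [dotProduct, Fin.sum_univ_four, Fin.sum_univ_three, hom]
    ring
  refine ⟨fun i => ![-a i 0, -a i 1, -a i 2, b i], fun j => hom (v j), ⟨fun i j => ⟨?_, ?_⟩,
    fun j => one_pos⟩, ?_⟩
  · intro hi
    rw [e, (hg i j).1 hi, sub_self]
  · intro hi
    rw [e]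
    exact sub_pos.2 ((hg i j).2 hi)
  · simp only [poly, deh_hom]

theorem normal_step {U U' : Cfg} {Y Y' : Fc → V4} (h : Adm U Y) (h' : Adm U' Y')
    (hn : ∀ i, ∃ c : ℝ, 0 < c ∧ nrm (U' i) = c • nrm (U i)) : Step (poly Y) (poly Y') := by
  refine ⟨h.isDodecahedron, h'.isDodecahedron, Or.inr ?_⟩
  unfold NormalStep poly
  rw [h.good.facetNormals_eq, h'.good.facetNormals_eq]
  ext n
  constructor
  · rintro ⟨i, t, ht, rfl⟩
    obtain ⟨c, hc, e⟩ := hn i
    refine ⟨i, t / c, by positivity, ?_⟩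
    simp only [e, smul_smul, div_mul_cancel₀ _ hc.ne']
  · rintro ⟨i, t, ht, rfl⟩
    obtain ⟨c, hc, e⟩ := hn i
    refine ⟨i, t * c, by positivity, ?_⟩
    simp only [e, smul_smul]

theorem mem_poly {Y : Fc → V4} (hY : ∀ j, 0 < Y j 3) (x : V3) :
    x ∈ poly Y ↔ ∃ w : Fc → ℝ, (∀ j, 0 ≤ w j) ∧ hom x = ∑ j, w j • Y j := by
  constructor
  · intro hx
    refine convexHull_min (t := {x | ∃ w : Fc → ℝ, (∀ j, 0 ≤ w j) ∧ hom x = ∑ j, w j • Y j})
      ?_ ?_ hx
    · rintro _ ⟨j, rfl⟩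
      refine ⟨Pi.single j (Y j 3)⁻¹, fun j' => ?_, ?_⟩
      · rw [Pi.single_apply]
        split_ifs
        · exact (inv_pos.2 (hY j)).le
        · exact le_rfl
      · rw [hom_deh (hY j).ne', Finset.sum_eq_single j (fun j' _ hj' => by simp [hj']) (by simp)]
        simp
    · rintro x ⟨w, hw, hx⟩ y ⟨w', hw', hy⟩ s t hs ht hst
      refine ⟨fun j => s * w j + t * w' j, fun j => add_nonneg (mul_nonneg hs (hw j))
        (mul_nonneg ht (hw' j)), ?_⟩
      have : hom (s • x + t • y) = s • hom x + t • hom y := by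
        ext k
        fin_cases k <;> simp [hom, hst]
      rw [this, hx, hy, Finset.smul_sum, Finset.smul_sum, ← Finset.sum_add_distrib]
      simp only [add_smul, smul_smul]
  · rintro ⟨w, hw, hx⟩
    have h3 : ∑ j, w j * Y j 3 = 1 := by
      have := congrFun hx 3
      rw [hom_three] at this
      simpa using this.symm
    apply mem_convexHull_of_exists_fintype (fun j => w j * Y j 3) (fun j => deh (Y j))
      (fun j => mul_nonneg (hw j) (hY j).le) h3 (fun j => Set.mem_range_self j)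
    ext k
    have := congrFun hx k.castSucc
    have e : hom x k.castSucc = x k := by fin_cases k <;> rfl
    rw [e] at this
    rw [this]
    simp only [Finset.sum_apply, Pi.smul_apply, smul_eq_mul, deh]
    refine Finset.sum_congr rfl fun j _ => ?_
    have := (hY j).ne'
    field_simp

theorem comb_pos {Y : Fc → V4} (hY : ∀ j, 0 < Y j 3) {w : Fc → ℝ} (hw : ∀ j, 0 ≤ w j)
    (hne : ∃ j, w j ≠ 0) : 0 < (∑ j, w j • Y j) 3 := by
  obtain ⟨j, hj⟩ := hne
  simp only [Finset.sum_apply, Pi.smul_apply, smul_eq_mul]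
  exact Finset.sum_pos' (fun j _ => mul_nonneg (hw j) (hY j).le)
    ⟨j, Finset.mem_univ _, mul_pos (lt_of_le_of_ne (hw j) hj.symm) (hY j)⟩

theorem exists_ne_zero {Y : Fc → V4} {w : Fc → ℝ} {x : V3} (hx : hom x = ∑ j, w j • Y j) :
    ∃ j, w j ≠ 0 := by
  by_contra hc
  push Not at hc
  have := congrFun hx 3
  simp [hom_three, hc] at this

theorem projective_poly {Y : Fc → V4} (hY : ∀ j, 0 < Y j 3) {M : Matrix (Fin 4) (Fin 4) ℝ}
    (hM : M.det ≠ 0) (hMY : ∀ j, 0 < (M *ᵥ Y j) 3) :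
    ProjectiveStep (poly Y) (poly fun j => M *ᵥ Y j) := by
  have hsum : ∀ w : Fc → ℝ, M *ᵥ (∑ j, w j • Y j) = ∑ j, w j • (M *ᵥ Y j) := fun w => by
    rw [mulVec_sum]; simp only [mulVec_smul]
  have hpos : ∀ x ∈ poly Y, 0 < (M *ᵥ hom x) 3 := by
    intro x hx
    obtain ⟨w, hw, hx⟩ := (mem_poly hY x).1 hx
    rw [hx, hsum]
    exact comb_pos hMY hw (exists_ne_zero hx)
  refine ⟨M, hM, fun x hx => (hpos x hx).ne', ?_⟩
  ext x'
  constructor
  · intro hx'
    obtain ⟨w, hw, hx'⟩ := (mem_poly hMY x').1 hx'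
    have h3 := comb_pos hY hw (exists_ne_zero hx')
    refine ⟨deh (∑ j, w j • Y j), (mem_poly hY _).2 ⟨fun j => ((∑ j, w j • Y j) 3)⁻¹ * w j,
      fun j => mul_nonneg (inv_pos.2 h3).le (hw j), ?_⟩, ?_⟩
    · rw [hom_deh h3.ne', Finset.smul_sum]
      simp only [smul_smul]
    · show deh (M *ᵥ hom (deh (∑ j, w j • Y j))) = x'
      rw [hom_deh h3.ne', mulVec_smul, deh_smul (inv_ne_zero h3.ne'), hsum, ← hx', deh_hom]
  · rintro ⟨x, hx, rfl⟩
    have h3 := hpos x hx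
    obtain ⟨w, hw, hx⟩ := (mem_poly hY x).1 hx
    refine (mem_poly hMY _).2 ⟨fun j => ((M *ᵥ hom x) 3)⁻¹ * w j,
      fun j => mul_nonneg (inv_pos.2 h3).le (hw j), ?_⟩
    show hom (deh (M *ᵥ hom x)) = _
    rw [hom_deh h3.ne']
    conv_lhs => rw [hx, hsum, Finset.smul_sum]
    simp only [smul_smul, ← hsum, ← hx]

theorem HG.det_ne {U : Cfg} {Y : Fc → V4} (h : HG U Y) (j : Fc) : D U j (opp j 0) ≠ 0 := by
  intro h0
  rw [D_eq, det4_eq_det] at h0
  obtain ⟨c, hc, hcz⟩ := Matrix.exists_vecMul_eq_zero_iff.2 h0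
  have hdot : ∀ y : V4, c 0 * (U (tri j 0) ⬝ᵥ y) + c 1 * (U (tri j 1) ⬝ᵥ y)
      + c 2 * (U (tri j 2) ⬝ᵥ y) + c 3 * (U (opp j 0) ⬝ᵥ y) = 0 := by
    intro y
    have := congrArg (fun v => v ⬝ᵥ y) hcz
    simp only [← dotProduct_mulVec, zero_dotProduct] at this
    rw [← this]
    simp [dotProduct, mulVec, Fin.sum_univ_four]
  have z : ∀ m, U (tri j m) ⬝ᵥ Y j = 0 := fun m => (h _ _).1 (inc_tri j m)
  have zn : ∀ m m', m' ≠ m → U (tri j m') ⬝ᵥ Y (nb j m) = 0 := fun m m' hm =>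
    (h _ _).1 ((nb_inc j m m').2 hm)
  have pn : ∀ m, U (tri j m) ⬝ᵥ Y (nb j m) ≠ 0 := fun m =>
    ((h _ _).2 (fun hc => (nb_inc j m m).1 hc rfl)).ne'
  have h3 : c 3 = 0 := by
    have := hdot (Y j)
    rw [z, z, z] at this
    simpa [((h _ _).2 (opp_not_inc j 0)).ne'] using this
  have h0 : c 0 = 0 := by
    have := hdot (Y (nb j 0))
    rw [zn 0 1 (by decide), zn 0 2 (by decide), h3] at this
    simpa [pn 0] using this
  have h1 : c 1 = 0 := by
    have := hdot (Y (nb j 1))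
    rw [zn 1 0 (by decide), zn 1 2 (by decide), h3] at this
    simpa [pn 1] using this
  have h2 : c 2 = 0 := by
    have := hdot (Y (nb j 2))
    rw [zn 2 0 (by decide), zn 2 1 (by decide), h3] at this
    simpa [pn 2] using this
  apply hc
  ext k
  fin_cases k <;> assumption

theorem HG.prop {U : Cfg} {Y : Fc → V4} (h : HG U Y) (j : Fc) {y : V4}
    (hy : ∀ m, U (tri j m) ⬝ᵥ y = 0) :
    y = ((U (opp j 0) ⬝ᵥ y) / (U (opp j 0) ⬝ᵥ Y j)) • Y j := by
  have hp := (h _ _).2 (opp_not_inc j 0)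
  rw [← sub_eq_zero]
  apply eq_zero_of_dot (h.det_ne j)
  · rw [dotProduct_sub, dotProduct_smul, hy, (h _ _).1 (inc_tri j 0)]; simp
  · rw [dotProduct_sub, dotProduct_smul, hy, (h _ _).1 (inc_tri j 1)]; simp
  · rw [dotProduct_sub, dotProduct_smul, hy, (h _ _).1 (inc_tri j 2)]; simp
  · rw [dotProduct_sub, dotProduct_smul, smul_eq_mul, div_mul_cancel₀ _ hp.ne', sub_self]

theorem HG.unique {U : Cfg} {Y Y' : Fc → V4} (h : HG U Y) (h' : HG U Y') (j : Fc) :
    ∃ c : ℝ, 0 < c ∧ Y' j = c • Y j :=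
  ⟨_, div_pos ((h' _ _).2 (opp_not_inc j 0)) ((h _ _).2 (opp_not_inc j 0)),
    h.prop j fun m => (h' _ _).1 (inc_tri j m)⟩

/-- The action of a matrix on configurations. -/
def act (g : Matrix (Fin 4) (Fin 4) ℝ) (U : Cfg) : Cfg := fun i => g *ᵥ U i

theorem act_act (g g' : Matrix (Fin 4) (Fin 4) ℝ) (U : Cfg) : act g (act g' U) = act (g * g') U := by
  ext1 i
  simp [act]

theorem act_one (U : Cfg) : act 1 U = U := by
  ext1 i
  simp [act]

theorem dot_dual {g : Matrix (Fin 4) (Fin 4) ℝ} (hg : g.det ≠ 0) (u y : V4) :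
    (g *ᵥ u) ⬝ᵥ (gᵀ⁻¹ *ᵥ y) = u ⬝ᵥ y := by
  rw [← vecMul_transpose, ← dotProduct_mulVec, mulVec_mulVec,
    mul_nonsing_inv _ (Ne.isUnit (by rwa [det_transpose])), one_mulVec]

theorem HG.act {U : Cfg} {Y : Fc → V4} (h : HG U Y) {g : Matrix (Fin 4) (Fin 4) ℝ}
    (hg : g.det ≠ 0) : HG (act g U) (fun j => gᵀ⁻¹ *ᵥ Y j) := by
  intro i j
  simp only [MP_bfbd14_co.act, dot_dual hg]
  exact h i j

theorem proj_step {U : Cfg} {Y Y' : Fc → V4} {g : Matrix (Fin 4) (Fin 4) ℝ} (hg : g.det ≠ 0)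
    (h : Adm U Y) (h' : Adm (act g U) Y') : Step (poly Y) (poly Y') := by
  refine ⟨h.isDodecahedron, h'.isDodecahedron, Or.inl ?_⟩
  choose c hc hY using (h.1.act hg).unique h'.1
  have e : poly Y' = poly fun j => gᵀ⁻¹ *ᵥ Y j := by
    simp only [poly, hY, deh_smul (hc _).ne']
  rw [e]
  refine projective_poly h.2 (by simpa using hg) fun j => ?_
  have := h'.2 j
  rw [hY] at this
  exact pos_of_mul_pos_left (by rw [mul_comm]; exact this) (hc j).le

theorem proj_step' {U : Cfg} {Y Y' : Fc → V4} {g g' : Matrix (Fin 4) (Fin 4) ℝ} (hg : g.det ≠ 0)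
    (hg' : g'.det ≠ 0) (h : Adm (act g U) Y) (h' : Adm (act g' U) Y') :
    Step (poly Y) (poly Y') := by
  apply proj_step (g := g' * g⁻¹) (by simp [hg, hg']) h
  rwa [act_act, Matrix.mul_assoc, nonsing_inv_mul _ (Ne.isUnit hg), Matrix.mul_one]

/-- Equivalence of configurations. -/
def Eqv (U U' : Cfg) : Prop :=
  ∀ (g g' : Matrix (Fin 4) (Fin 4) ℝ) (Y Y' : Fc → V4), g.det ≠ 0 → g'.det ≠ 0 →
    Adm (act g U) Y → Adm (act g' U') Y' → Rel (poly Y) (poly Y')

theorem Eqv.symm {U U' : Cfg} (h : Eqv U U') : Eqv U' U :=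
  fun g g' Y Y' hg hg' h1 h2 => (h g' g Y' Y hg' hg h2 h1).symm

theorem eqv_of {U U' : Cfg} {g g' : Matrix (Fin 4) (Fin 4) ℝ} {Y Y' : Fc → V4} (hg : g.det ≠ 0)
    (hg' : g'.det ≠ 0) (h : Adm (act g U) Y) (h' : Adm (act g' U') Y')
    (hr : Rel (poly Y) (poly Y')) : Eqv U U' :=
  fun _ _ _ _ k1 k2 h1 h2 =>
    Relation.ReflTransGen.tail (Relation.ReflTransGen.head (proj_step' k1 hg h1 h) hr)
      (proj_step' hg' k2 h' h2)

theorem exists_matrix {o : V4} (ho : o ≠ 0) :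
    ∃ g : Matrix (Fin 4) (Fin 4) ℝ, g.det ≠ 0 ∧ g *ᵥ o = Pi.single 3 1 := by
  obtain ⟨k, hk⟩ := Function.ne_iff.1 ho
  let h : Matrix (Fin 4) (Fin 4) ℝ := ((1 : Matrix (Fin 4) (Fin 4) ℝ).updateCol k o).submatrix id
    (Equiv.swap k 3)
  have hdet : h.det ≠ 0 := by
    have : ((1 : Matrix (Fin 4) (Fin 4) ℝ).updateCol k o).det = o k := by
      rw [← Matrix.cramer_apply, Matrix.cramer_one]; rfl
    simp only [h]
    rw [Matrix.det_permute', this]
    exact mul_ne_zero (by simp) hk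
  have he : h *ᵥ Pi.single 3 1 = o := by
    ext i
    simp [h]
  refine ⟨h⁻¹, by simpa using hdet, ?_⟩
  rw [← he, mulVec_mulVec, nonsing_inv_mul _ (Ne.isUnit hdet), one_mulVec]

theorem HG.adm {U : Cfg} {Y : Fc → V4} (h : HG U Y) {o : V4} (ho : ∀ j, 0 < o ⬝ᵥ Y j)
    {g : Matrix (Fin 4) (Fin 4) ℝ} (hg : g.det ≠ 0) (hgo : g *ᵥ o = Pi.single 3 1) :
    Adm (MP_bfbd14_co.act g U) (fun j => gᵀ⁻¹ *ᵥ Y j) := by
  refine ⟨h.act hg, fun j => ?_⟩
  have := dot_dual hg o (Y j)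
  rw [hgo, single_dotProduct, one_mul] at this
  exact (ho j).trans_eq this.symm

theorem ne_zero_of_pos {o : V4} {Y : Fc → V4} (ho : ∀ j, 0 < o ⬝ᵥ Y j) : o ≠ 0 := by
  rintro rfl
  simpa using ho (0, 0)

theorem HG.sum_pos {U : Cfg} {Y : Fc → V4} (h : HG U Y) (j : Fc) : 0 < (∑ i, U i) ⬝ᵥ Y j := by
  rw [sum_dotProduct]
  refine Finset.sum_pos' (fun i _ => ?_) ⟨opp j 0, Finset.mem_univ _, (h _ _).2 (opp_not_inc j 0)⟩
  by_cases hi : inc i j
  · exact ((h i j).1 hi).ge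
  · exact ((h i j).2 hi).le

theorem Eqv.trans {U U' U'' : Cfg} {Y' : Fc → V4} (hY : HG U' Y') (h1 : Eqv U U')
    (h2 : Eqv U' U'') : Eqv U U'' := by
  obtain ⟨g, hg, hgo⟩ := exists_matrix (ne_zero_of_pos hY.sum_pos)
  have hadm := hY.adm hY.sum_pos hg hgo
  exact fun _ _ _ _ k1 k2 a1 a2 =>
    Relation.ReflTransGen.trans (h1 _ _ _ _ k1 hg a1 hadm) (h2 _ _ _ _ hg k2 hadm a2)

theorem eqv_act (U : Cfg) {g : Matrix (Fin 4) (Fin 4) ℝ} (hg : g.det ≠ 0) : Eqv U (act g U) := by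
  intro g₁ g₂ Y Y' k1 k2 a1 a2
  rw [act_act] at a2
  exact Relation.ReflTransGen.single (proj_step' k1 (by simp [k2, hg]) a1 a2)

theorem eqv_refl (U : Cfg) : Eqv U U := by
  simpa [act_one] using eqv_act U (g := 1) (by simp)

/-- Moving all facets towards a common interior point is a normal step in a suitable chart. -/
theorem eqv_move {U U' : Cfg} {Y Y' : Fc → V4} (h : HG U Y) (h' : HG U' Y') {o : V4}
    (ho : ∀ j, 0 < o ⬝ᵥ Y j) (ho' : ∀ j, 0 < o ⬝ᵥ Y' j)
    (hU : ∀ i, ∃ c t : ℝ, 0 < c ∧ U' i = c • U i + t • o) : Eqv U U' := by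
  obtain ⟨g, hg, hgo⟩ := exists_matrix (ne_zero_of_pos ho)
  refine eqv_of hg hg (h.adm ho hg hgo) (h'.adm ho' hg hgo) (Relation.ReflTransGen.single
    (normal_step (h.adm ho hg hgo) (h'.adm ho' hg hgo) fun i => ?_))
  obtain ⟨c, t, hc, e⟩ := hU i
  refine ⟨c, hc, ?_⟩
  simp only [act, e, mulVec_add, mulVec_smul, hgo]
  ext k
  fin_cases k <;> simp [nrm]

theorem eqv_scale {U : Cfg} {Y : Fc → V4} (h : HG U Y) {c : Vtx → ℝ} (hc : ∀ i, 0 < c i) :
    Eqv U (fun i => c i • U i) := by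
  have h' : HG (fun i => c i • U i) Y := by
    intro i j
    simp only [smul_dotProduct, smul_eq_mul]
    exact ⟨fun hi => by rw [(h i j).1 hi, mul_zero], fun hi => mul_pos (hc i) ((h i j).2 hi)⟩
  exact eqv_move h h' h.sum_pos h.sum_pos fun i => ⟨c i, 0, hc i, by simp⟩

theorem InR.hg {U : Cfg} (h : InR U) : HG U (XU U) :=
  fun i j => ⟨D_inc U j i, h j i⟩

theorem continuous_XU (j : Fc) : Continuous fun U : Cfg => XU U j := by
  unfold XU X4
  fun_prop

theorem continuous_D (j : Fc) (i : Vtx) : Continuous fun U : Cfg => D U j i := by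
  unfold D
  exact (continuous_apply i).dotProduct (continuous_XU j)

theorem isOpen_inR : IsOpen {U : Cfg | InR U} := by
  simp only [InR, Set.ofPred_forall]
  exact isOpen_iInter_of_finite fun j => isOpen_iInter_of_finite fun i =>
    isOpen_iInter_of_finite fun _ => isOpen_lt continuous_const (continuous_D j i)

/-- Equivalence classes are open. -/
theorem eqv_nhds {U : Cfg} (hU : InR U) : ∀ᶠ U' in 𝓝 U, Eqv U U' := by
  classical
  set o : V4 := ∑ i, U i with ho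
  have hη : ∀ᶠ η in 𝓝 (0 : ℝ), ∀ j (m : Fin 4), 0 < (o + η • Pi.single m 1) ⬝ᵥ XU U j := by
    simp only [Filter.eventually_all]
    intro j m
    have hc : Continuous fun η : ℝ => (o + η • (Pi.single m 1 : V4)) ⬝ᵥ XU U j := by fun_prop
    apply hc.continuousAt.eventually (lt_mem_nhds _)
    simpa using hU.hg.sum_pos j
  obtain ⟨η, hη1, hη0⟩ := ((hη.filter_mono nhdsWithin_le_nhds).and
    (self_mem_nhdsWithin (s := Set.Ioi (0 : ℝ)))).exists
  have hη0 : 0 < η := hη0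
  let W : Set Cfg := {U' | InR U'} ∩ {U' | ∀ j, 0 < o ⬝ᵥ XU U' j} ∩
    {U' | ∀ j (m : Fin 4), 0 < (o + η • Pi.single m 1) ⬝ᵥ XU U' j}
  have hW : IsOpen W := by
    refine (isOpen_inR.inter ?_).inter ?_
    · simp only [Set.ofPred_forall]
      exact isOpen_iInter_of_finite fun j =>
        isOpen_lt continuous_const (continuous_const.dotProduct (continuous_XU j))
    · simp only [Set.ofPred_forall]
      exact isOpen_iInter_of_finite fun j => isOpen_iInter_of_finite fun m =>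
        isOpen_lt continuous_const (continuous_const.dotProduct (continuous_XU j))
  have hUW : U ∈ W := ⟨⟨hU, hU.hg.sum_pos⟩, hη1⟩
  let T : Finset (Fin 4) → Cfg → Cfg := fun s U' i =>
    U i + ∑ m ∈ s, ((U' i m - U i m) / η) • (o + η • Pi.single m 1)
  have hT : ∀ s, ∀ᶠ U' in 𝓝 U, T s U' ∈ W := by
    intro s
    have hc : Continuous (T s) := by
      simp only [T]
      fun_prop
    apply hc.continuousAt.eventually (hW.mem_nhds _)
    have : T s U = U := by
      ext1 i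
      simp [T]
    rwa [this]
  filter_upwards [Filter.eventually_all.2 hT, hW.mem_nhds hUW] with U' h1 h2
  have hind : ∀ s, Eqv U (T s U') := by
    intro s
    induction s using Finset.induction_on with
    | empty =>
      have : T ∅ U' = U := by
        ext1 i
        simp [T]
      rw [this]
      exact eqv_refl U
    | insert m s hm ih =>
      refine Eqv.trans (h1 s).1.1.hg ih (eqv_move (h1 s).1.1.hg (h1 _).1.1.hg
        (fun j => (h1 s).2 j m) (fun j => (h1 _).2 j m) fun i =>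
          ⟨1, (U' i m - U i m) / η, one_pos, ?_⟩)
      simp only [T, Finset.sum_insert hm, one_smul]
      abel
  refine Eqv.trans (h1 Finset.univ).1.1.hg (hind _) (eqv_move (h1 _).1.1.hg h2.1.1.hg
    (h1 _).1.2 h2.1.2 fun i => ⟨1, -∑ m, (U' i m - U i m) / η, one_pos, ?_⟩)
  ext k
  have e : ∑ m, (U' i m - U i m) / η * (η * (Pi.single m 1 : V4) k) = U' i k - U i k := by
    rw [Finset.sum_eq_single k (fun m _ hm => by simp [hm.symm]) (by simp)]
    simp only [Pi.single_eq_same]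
    field_simp
  simp only [T, one_smul, Pi.add_apply, Finset.sum_apply, Pi.smul_apply, smul_eq_mul, mul_add,
    Finset.sum_add_distrib, e]
  rw [← Finset.sum_mul]
  ring

/-- Every configuration can be oriented. -/
theorem HG.exists_inR {U : Cfg} {Y : Fc → V4} (h : HG U Y) :
    ∃ g : Matrix (Fin 4) (Fin 4) ℝ, g.det ≠ 0 ∧ InR (MP_bfbd14_co.act g U) := by
  have hX : ∀ j, ∃ ε : ℝ, XU U j = ε • Y j := fun j =>
    ⟨_, h.prop j fun m => D_inc U j _ (inc_tri j m)⟩
  choose ε hε using hX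
  have hD : ∀ j i, D U j i = ε j * (U i ⬝ᵥ Y j) := fun j i => by
    rw [D, hε, dotProduct_smul, smul_eq_mul]
  have hne : ∀ j, ε j ≠ 0 := fun j h0 => h.det_ne j (by rw [hD, h0, zero_mul])
  have hprop : ∀ s : ℝ, ∀ j m, 0 < s * ε j → 0 < s * ε (nb j m) := by
    intro s j m hj
    have e := D_nb U j m
    rw [hD, hD] at e
    have p1 := (h _ _).2 (opp_not_inc j m)
    have p2 := (h _ _).2 (fun hc => (nb_inc j m m).1 hc rfl)
    have : 0 < s * ε (nb j m) * (U (tri j m) ⬝ᵥ Y (nb j m)) := by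
      rw [mul_assoc, ← e, ← mul_assoc]
      exact mul_pos hj p1
    exact (mul_pos_iff_of_pos_right p2).1 this
  have hall := nb_connected (fun j => 0 < ε (3, 0) * ε j) (hprop _) (mul_self_pos.2 (hne _))
  let g : Matrix (Fin 4) (Fin 4) ℝ := Matrix.diagonal ![ε (3, 0), 1, 1, 1]
  have hg : g.det = ε (3, 0) := by simp [g, Fin.prod_univ_four]
  refine ⟨g, hg ▸ hne _, fun j i hi => ?_⟩
  rw [D_eq]
  simp only [MP_bfbd14_co.act]
  rw [det4_mulVec, ← D_eq, hD, hg, ← mul_assoc]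
  exact mul_pos (hall j) ((h _ _).2 hi)

end Pool.Agent.P.MP_bfbd14_co
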