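import Pool.Agent.P.MP_bfbd14_co.Tutte
import Pool.Agent.P.MP_bfbd14_co.Eqv

/-! The realization space is parametrised by a convex set, so all realizations are equivalent. -/

set_option autoImplicit false

open Matrix Topology

namespace Pool.Agent.P.MP_bfbd14_co

open Vtx

/-- Parameters: the fifth corner of the pentagon, the stress, and one affine function. -/
abbrev Par := V3 × (Ed → ℝ) × V3

/-- The admissible parameters. -/
def Θ : Set Par :=
  {θ | 0 < θ.1 2 ∧ 0 < θ.1 0 + θ.1 1 ∧ θ.1 1 + θ.1 2 < 0 ∧ ∀ e, 0 < θ.2.1 e}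

theorem convex_Θ : Convex ℝ Θ := by
  have key : ∀ {a b x y : ℝ}, 0 ≤ a → 0 ≤ b → a + b = 1 → 0 < x → 0 < y → 0 < a * x + b * y := by
    intro a b x y ha hb hab hx hy
    rcases ha.eq_or_lt with rfl | ha'
    · have : b = 1 := by linarith
      rw [this]; linarith
    · have := mul_pos ha' hx
      have := mul_nonneg hb hy.le
      linarith
  rintro x ⟨x1, x2, x3, x4⟩ y ⟨y1, y2, y3, y4⟩ a b ha hb hab
  refine ⟨?_, ?_, ?_, fun e => ?_⟩ <;>
    simp only [Prod.fst_add, Prod.snd_add, Prod.smul_fst, Prod.smul_snd, Pi.add_apply,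
      Pi.smul_apply, smul_eq_mul]
  · exact key ha hb hab x1 y1
  · linarith [key ha hb hab x2 y2]
  · linarith [key ha hb hab (neg_pos.2 x3) (neg_pos.2 y3)]
  · exact key ha hb hab (x4 e) (y4 e)

/-- Boundary data. -/
def bdata (q : V3) : Vtx → V3
  | .p a => ![![1, 0, 0], ![0, 1, 0], ![0, 0, 1], ![1, -1, 1], q] a
  | _ => 0

/-- The Tutte embedding. -/
noncomputable def ysol (θ : Par) : Vtx → V3 :=
  fun v k => ((Lap θ.2.1)⁻¹ *ᵥ fun w => bdata θ.1 w k) v

/-- The lifted Tutte embedding. -/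
noncomputable def K (θ : Par) : Cfg :=
  lift (ysol θ) (hts (ysol θ) (L1 θ.2.1 (ysol θ) θ.2.2) (L3 θ.2.1 (ysol θ) θ.2.2))

theorem Lap_ysol {θ : Par} (h : θ ∈ Θ) (k : Fin 3) :
    Lap θ.2.1 *ᵥ (fun v => ysol θ v k) = fun w => bdata θ.1 w k := by
  show Lap θ.2.1 *ᵥ ((Lap θ.2.1)⁻¹ *ᵥ fun w => bdata θ.1 w k) = _
  rw [mulVec_mulVec, mul_nonsing_inv _ (Ne.isUnit (Lap_det_ne h.2.2.2)), one_mulVec]

theorem ysol_bd {θ : Par} (h : θ ∈ Θ) (v : Vtx) (hv : intr v = false) :
    ysol θ v = bdata θ.1 v := by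
  ext k
  have := congrFun (Lap_ysol h k) v
  rwa [Lap_mulVec, if_neg (by simp [hv])] at this

theorem ysol_harm {θ : Par} (h : θ ∈ Θ) (k : Fin 3) : Harm θ.2.1 (fun v => ysol θ v k) := by
  rw [harm_iff, Lap_ysol h]
  rintro (_ | _ | a | a) hv
  · rfl
  · rfl
  · exact absurd hv (by simp [intr])
  · rfl

theorem harm_dot {ω : Ed → ℝ} {y : Vtx → V3} (h : ∀ k, Harm ω (fun v => y v k)) (n : V3) :
    Harm ω (fun v => n ⬝ᵥ y v) := by
  intro χ h1 h2
  have e : ∀ e, ω e * ((χ (src e) - χ (tgt e)) * (n ⬝ᵥ y (src e) - n ⬝ᵥ y (tgt e)))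
      = n 0 * (ω e * ((χ (src e) - χ (tgt e)) * (y (src e) 0 - y (tgt e) 0)))
      + n 1 * (ω e * ((χ (src e) - χ (tgt e)) * (y (src e) 1 - y (tgt e) 1)))
      + n 2 * (ω e * ((χ (src e) - χ (tgt e)) * (y (src e) 2 - y (tgt e) 2))) := by
    intro e
    simp only [dotProduct, Fin.sum_univ_three]
    ring
  simp only [e, Finset.sum_add_distrib, ← Finset.mul_sum]
  rw [h 0 χ h1 h2, h 1 χ h1 h2, h 2 χ h1 h2]
  simp

theorem ysol_nondeg {θ : Par} (h : θ ∈ Θ) {n : V3} (hn : n ≠ 0) :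
    (∀ a b, ¬ (n ⬝ᵥ ysol θ (p a) = 0 ∧ n ⬝ᵥ ysol θ (p (a + 1)) = 0 ∧ n ⬝ᵥ ysol θ (r b) = 0)) ∧
    (∀ a, ¬ (n ⬝ᵥ ysol θ (p (a + 1)) = 0 ∧ n ⬝ᵥ ysol θ (r (a + 1)) = 0 ∧
      n ⬝ᵥ ysol θ (r a) = 0)) ∧
    (∀ a, ¬ (n ⬝ᵥ ysol θ S = 0 ∧ n ⬝ᵥ ysol θ (r a) = 0 ∧ n ⬝ᵥ ysol θ (r (a + 1)) = 0)) := by
  have b := fun a => ysol_bd h (p a) rfl
  refine harm_nondeg h.2.2.2 (harm_dot (ysol_harm h) n) h.1 h.2.1 h.2.2.1 ?_ ?_ ?_
  · simp [b, bdata, dotProduct, Fin.sum_univ_three]
    ring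
  · simp [b, bdata, dotProduct, Fin.sum_univ_three]
    ring
  · simp only [b, bdata, dotProduct, Fin.sum_univ_three]
    rintro ⟨h0, h1, h2⟩
    exact hn (ext3 (by simpa using h0) (by simpa using h1) (by simpa using h2))

theorem areas_ne {θ : Par} (h : θ ∈ Θ) (a : Fin 5) :
    det3 (ysol θ (p a)) (ysol θ (p (a + 1))) (ysol θ (r a)) ≠ 0 ∧
    det3 (ysol θ (p (a + 1))) (ysol θ (r (a + 1))) (ysol θ (r a)) ≠ 0 ∧
    det3 (ysol θ S) (ysol θ (r a)) (ysol θ (r (a + 1))) ≠ 0 := by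
  refine ⟨fun h0 => ?_, fun h0 => ?_, fun h0 => ?_⟩ <;> obtain ⟨n, hn, h1⟩ := exists_ker h0
  · exact (ysol_nondeg h hn).1 a a h1
  · exact (ysol_nondeg h hn).2.1 a h1
  · exact (ysol_nondeg h hn).2.2 a h1

theorem up_smul {c c' : ℝ} {y y' : V3} {z z' : ℝ} (h : c • up y z = c' • up y' z') :
    c • y = c' • y' :=
  ext3 (congrFun h 0) (congrFun h 1) (congrFun h 2)

theorem K_anti {θ : Par} (h : θ ∈ Θ) (l : Vtx) (c c' : ℝ) (hc : 0 < c) (hc' : 0 < c') :
    c • K θ l ≠ c' • K θ (anti l) := by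
  have hN : ysol θ N = 0 := ysol_bd h N rfl
  have hS : ∀ c : ℝ, 0 < c → c • ysol θ S ≠ 0 := by
    intro c hc h0
    have := (areas_ne h 0).2.2
    rw [(smul_eq_zero.1 h0).resolve_left hc.ne'] at this
    exact this (by simp [det3_def])
  have hP : ∀ a b (c c' : ℝ), 0 < c' → c • ysol θ (p a) ≠ c' • ysol θ (r b) := by
    intro a b c c' hc' h0
    have hn : cr (ysol θ (p a)) (ysol θ (p (a + 1))) ≠ 0 := by
      intro hz
      exact (areas_ne h a).1 (by rw [det3, hz, zero_dotProduct])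
    refine (ysol_nondeg h hn).1 a b ⟨cr_left _ _, cr_right _ _, ?_⟩
    have := congrArg (fun x => cr (ysol θ (p a)) (ysol θ (p (a + 1))) ⬝ᵥ x) h0
    simp only [dotProduct_smul, cr_left, smul_eq_mul, mul_zero] at this
    exact (mul_eq_zero.1 this.symm).resolve_left hc'.ne'
  intro he
  have := up_smul he
  rcases l with _ | _ | a | a
  · rw [hN, smul_zero] at this
    exact hS _ hc' this.symm
  · rw [show anti S = N from rfl, hN, smul_zero] at this
    exact hS _ hc this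
  · exact hP _ _ _ _ hc' this
  · exact hP _ _ _ _ hc this.symm

theorem pentagon {θ : Par} (h : θ ∈ Θ) (a : Fin 5) :
    0 < det3 (ysol θ (p a)) (ysol θ (p (a + 1))) (ysol θ (p (a + 2))) := by
  have b := fun a => ysol_bd h (p a) rfl
  obtain ⟨h1, h2, h3, -⟩ := h
  rw [b, b, b]
  fin_cases a <;> simp [bdata, det3_def] <;> linarith

theorem continuous_ysol : Continuous fun θ : Θ => ysol θ.1 := by
  have hL : Continuous fun θ : Θ => Lap θ.1.2.1 := by
    refine continuous_pi fun v => continuous_pi fun w => ?_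
    simp only [Lap, Matrix.of_apply]
    split_ifs <;> fun_prop
  have hI : Continuous fun θ : Θ => (Lap θ.1.2.1)⁻¹ := by
    simp only [Matrix.inv_def, Ring.inverse_eq_inv']
    exact (hL.matrix_det.inv₀ fun θ => Lap_det_ne θ.2.2.2.2).smul hL.matrix_adjugate
  refine continuous_pi fun v => continuous_pi fun k => ?_
  refine (continuous_apply v).comp (hI.matrix_mulVec (continuous_pi fun w => ?_))
  rcases w with _ | _ | a | a
  · exact continuous_const
  · exact continuous_const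
  · fin_cases a
    · exact continuous_const
    · exact continuous_const
    · exact continuous_const
    · exact continuous_const
    · show Continuous fun θ : Θ => θ.1.1 k
      fun_prop
  · exact continuous_const

theorem continuous_cr {X : Type} [TopologicalSpace X] {f g : X → V3} (hf : Continuous f)
    (hg : Continuous g) : Continuous fun x => cr (f x) (g x) := by
  unfold cr
  fun_prop

theorem continuous_K : Continuous fun θ : Θ => K θ.1 := by
  have hy : ∀ v, Continuous fun θ : Θ => ysol θ.1 v := fun v =>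
    (continuous_apply v).comp continuous_ysol
  have hc : ∀ v w, Continuous fun θ : Θ => cr (ysol θ.1 v) (ysol θ.1 w) := fun v w =>
    continuous_cr (hy v) (hy w)
  have hω : ∀ e, Continuous fun θ : Θ => θ.1.2.1 e := fun e => by fun_prop
  have hl : Continuous fun θ : Θ => θ.1.2.2 := by fun_prop
  have h3 : ∀ a, Continuous fun θ : Θ => L3 θ.1.2.1 (ysol θ.1) θ.1.2.2 a := by
    intro a
    fin_cases a
    · exact hl
    · exact hl.add ((hω _).smul (hc _ _))
    · exact (hl.add ((hω _).smul (hc _ _))).add ((hω _).smul (hc _ _))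
    · exact ((hl.add ((hω _).smul (hc _ _))).add ((hω _).smul (hc _ _))).add
        ((hω _).smul (hc _ _))
    · exact (((hl.add ((hω _).smul (hc _ _))).add ((hω _).smul (hc _ _))).add
        ((hω _).smul (hc _ _))).add ((hω _).smul (hc _ _))
  have h1 : ∀ a, Continuous fun θ : Θ => L1 θ.1.2.1 (ysol θ.1) θ.1.2.2 a := fun a =>
    ((h3 a).add ((hω _).smul (hc _ _))).add ((hω _).smul (hc _ _))
  have hz : ∀ v, Continuous fun θ : Θ =>
      hts (ysol θ.1) (L1 θ.1.2.1 (ysol θ.1) θ.1.2.2) (L3 θ.1.2.1 (ysol θ.1) θ.1.2.2) v := by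
    rintro (_ | _ | a | a)
    · exact continuous_const
    · exact (h3 0).dotProduct (hy _)
    · exact (h1 a).dotProduct (hy _)
    · exact (h3 a).dotProduct (hy _)
  refine continuous_pi fun v => continuous_pi fun k => ?_
  fin_cases k
  · have := (continuous_apply (0 : Fin 3)).comp (hy v)
    exact this
  · have := (continuous_apply (1 : Fin 3)).comp (hy v)
    exact this
  · have := (continuous_apply (2 : Fin 3)).comp (hy v)
    exact this
  · exact hz v

instance preconnΘ : PreconnectedSpace Θ := Subtype.preconnectedSpace convex_Θ.isPreconnected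

theorem pos_of_ne {f : Θ → ℝ} (hf : Continuous f) (hne : ∀ θ, f θ ≠ 0) {θ₀ : Θ} (h0 : 0 < f θ₀)
    (θ : Θ) : 0 < f θ := by
  by_contra hc
  obtain ⟨θ', h'⟩ := intermediate_value_univ θ θ₀ hf (show (0 : ℝ) ∈ Set.Icc (f θ) (f θ₀) from
    ⟨not_lt.1 hc, h0.le⟩)
  exact hne θ' h'

theorem K_N {θ : Par} (h : θ ∈ Θ) : K θ N = up 0 1 := by
  show up (ysol θ N) 1 = _
  rw [ysol_bd h N rfl]
  rfl

theorem inR_K {θ₀ : Θ} (h0 : InR (K θ₀.1)) (θ : Θ) : InR (K θ.1) := by
  have hy : ∀ v, Continuous fun θ : Θ => ysol θ.1 v := fun v =>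
    (continuous_apply v).comp continuous_ysol
  have hd : ∀ u v w, Continuous fun θ : Θ => det3 (ysol θ.1 u) (ysol θ.1 v) (ysol θ.1 w) :=
    fun u v w => (continuous_cr (hy u) (hy v)).dotProduct (hy w)
  have hA : ∀ θ : Θ, Areas (ysol θ.1) := by
    intro θ
    refine ⟨fun a => pos_of_ne (hd _ _ _) (fun θ => (areas_ne θ.2 a).1) (θ₀ := θ₀) ?_ θ,
      fun a => pos_of_ne (hd _ _ _) (fun θ => (areas_ne θ.2 a).2.1) (θ₀ := θ₀) ?_ θ,
      fun a => pos_of_ne (hd _ _ _) (fun θ => (areas_ne θ.2 a).2.2) (θ₀ := θ₀) ?_ θ⟩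
    · have := h0 (1, a) N (by revert a; decide)
      rw [D_eq, K_N θ₀.2] at this
      exact (det4_top _ _ _ _ _ _) ▸ this
    · have := h0 (2, a) N (by revert a; decide)
      rw [D_eq, K_N θ₀.2] at this
      exact (det4_top _ _ _ _ _ _) ▸ this
    · have := h0 (3, a) N (by revert a; decide)
      rw [D_eq, K_N θ₀.2] at this
      exact (det4_top _ _ _ _ _ _) ▸ this
  have hloc : ∀ (θ : Θ) j m, 0 < D (K θ.1) j (opp j m) := fun θ j m =>
    (lift_of_harm (ysol_harm θ.2) _).local θ.2.2.2.2 (hA θ) (ysol_bd θ.2 N rfl) (pentagon θ.2) j m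
  have hcl : IsClopen {θ : Θ | InR (K θ.1)} := by
    refine ⟨?_, isOpen_inR.preimage continuous_K⟩
    have : {θ : Θ | InR (K θ.1)} = {θ : Θ | ∀ j i, 0 ≤ D (K θ.1) j i} := by
      ext θ
      constructor
      · intro h j i
        by_cases hi : inc i j
        · exact (D_inc _ j i hi).ge
        · exact (h j i hi).le
      · intro h
        exact inR_of_local _ h (hloc θ) (K_anti θ.2)
    rw [this]
    simp only [Set.ofPred_forall]
    exact isClosed_iInter fun j => isClosed_iInter fun i =>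
      isClosed_le continuous_const ((continuous_D j i).comp continuous_K)
  have := hcl.eq_univ ⟨θ₀, h0⟩
  exact (this ▸ Set.mem_univ θ : θ ∈ {θ : Θ | InR (K θ.1)})

theorem eqv_K {θ₀ : Θ} (h0 : InR (K θ₀.1)) (θ : Θ) : Eqv (K θ₀.1) (K θ.1) := by
  have hcl : IsClopen {θ : Θ | Eqv (K θ₀.1) (K θ.1)} := by
    constructor
    · rw [← isOpen_compl_iff, isOpen_iff_eventually]
      intro θ hθ
      filter_upwards [continuous_K.continuousAt.eventually (eqv_nhds (inR_K h0 θ))] with θ' h'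
      exact fun hc => hθ (Eqv.trans (inR_K h0 θ').hg hc h'.symm)
    · rw [isOpen_iff_eventually]
      intro θ hθ
      filter_upwards [continuous_K.continuousAt.eventually (eqv_nhds (inR_K h0 θ))] with θ' h'
      exact Eqv.trans (inR_K h0 θ).hg hθ h'
  have := hcl.eq_univ ⟨θ₀, eqv_refl _⟩
  exact (this ▸ Set.mem_univ θ : θ ∈ {θ : Θ | Eqv (K θ₀.1) (K θ.1)})

/-! ### Normalisation -/

/-- The affine function interpolating three heights. -/
noncomputable def interp (a b c : V3) (za zb zc : ℝ) : V3 :=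
  (det3 a b c)⁻¹ • (za • cr b c + zb • cr c a + zc • cr a b)

theorem interp_1 {a b c : V3} (h : det3 a b c ≠ 0) (za zb zc : ℝ) :
    interp a b c za zb zc ⬝ᵥ a = za := by
  have : cr b c ⬝ᵥ a = det3 a b c := by
    rw [show cr b c ⬝ᵥ a = det3 b c a from rfl, det3_def, det3_def]; ring
  simp only [interp, smul_dotProduct, add_dotProduct, cr_left, cr_right, this, smul_eq_mul]
  field_simp
  ring

theorem interp_rot (a b c : V3) (za zb zc : ℝ) : interp a b c za zb zc = interp b c a zb zc za := by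
  have : det3 a b c = det3 b c a := by rw [det3_def, det3_def]; ring
  simp only [interp, this]
  congr 1
  abel

theorem det3_rot (a b c : V3) : det3 a b c = det3 b c a := by rw [det3_def, det3_def]; ring

theorem interp_2 {a b c : V3} (h : det3 a b c ≠ 0) (za zb zc : ℝ) :
    interp a b c za zb zc ⬝ᵥ b = zb := by
  rw [interp_rot, interp_1 (by rwa [← det3_rot])]

theorem interp_jump {v w a b : V3} (h1 : det3 v w a ≠ 0) (h2 : det3 w v b ≠ 0) (zv zw za zb : ℝ) :
    interp w v b zw zv zb = interp v w a zv zw za +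
      (det4 (up v zv) (up w zw) (up a za) (up b zb) / (det3 v w a * det3 w v b)) • cr w v := by
  apply ext3 <;>
    simp only [interp, Pi.add_apply, Pi.smul_apply, smul_eq_mul, cr0, cr1, cr2] <;>
    field_simp <;>
    simp only [det3_def, det4_def, up, Matrix.cons_val_zero, Matrix.cons_val_one,
      Matrix.cons_val] <;>
    ring

theorem exists_par {y : Vtx → V3} {z : Vtx → ℝ} (hU : InR (lift y z)) (hN : y N = 0)
    (hz : z N = 1) (h0 : y (p 0) = ![1, 0, 0]) (h1 : y (p 1) = ![0, 1, 0])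
    (h2 : y (p 2) = ![0, 0, 1]) (h3 : y (p 3) = ![1, -1, 1])
    (hs : ∀ v, v ≠ N → y v 0 + y v 1 + y v 2 = 1) : ∃ θ : Θ, K θ.1 = lift y z := by
  have hUN : lift y z N = up 0 1 := by rw [lift, hN, hz]
  have A1 : ∀ a, 0 < det3 (y (p a)) (y (p (a + 1))) (y (r a)) := fun a => by
    have := hU (1, a) N (by revert a; decide)
    rw [D_eq, hUN] at this
    exact (det4_top _ _ _ _ _ _) ▸ this
  have A2 : ∀ a, 0 < det3 (y (p (a + 1))) (y (r (a + 1))) (y (r a)) := fun a => by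
    have := hU (2, a) N (by revert a; decide)
    rw [D_eq, hUN] at this
    exact (det4_top _ _ _ _ _ _) ▸ this
  have A3 : ∀ a, 0 < det3 (y S) (y (r a)) (y (r (a + 1))) := fun a => by
    have := hU (3, a) N (by revert a; decide)
    rw [D_eq, hUN] at this
    exact (det4_top _ _ _ _ _ _) ▸ this
  let l1 : Fin 5 → V3 := fun a =>
    interp (y (p a)) (y (p (a + 1))) (y (r a)) (z (p a)) (z (p (a + 1))) (z (r a))
  let l2 : Fin 5 → V3 := fun a =>
    interp (y (p (a + 1))) (y (r (a + 1))) (y (r a)) (z (p (a + 1))) (z (r (a + 1))) (z (r a))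
  let l3 : Fin 5 → V3 := fun a =>
    interp (y S) (y (r a)) (y (r (a + 1))) (z S) (z (r a)) (z (r (a + 1)))
  let W : Vtx → Vtx → Vtx → Vtx → ℝ := fun v w a b =>
    det4 (lift y z v) (lift y z w) (lift y z a) (lift y z b) /
      (det3 (y v) (y w) (y a) * det3 (y w) (y v) (y b))
  let ω : Ed → ℝ := fun e => ![W (r e.2) (p e.2) (p (e.2 + 1)) (r (e.2 + 4)),
    W (r e.2) (p (e.2 + 1)) (r (e.2 + 1)) (p e.2), W (r e.2) (r (e.2 + 1)) S (p (e.2 + 1)),
    W (r e.2) S (r (e.2 + 4)) (r (e.2 + 1))] e.1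
  have hω : ∀ e, 0 < ω e := by
    rintro ⟨k, a⟩
    fin_cases k
    · show 0 < W (r a) (p a) (p (a + 1)) (r (a + 4))
      have d := hU (1, a) _ (opp_not_inc (1, a) 1)
      rw [D_rot _ _ _ 2] at d
      have a2 := A2 (a + 4)
      rw [f41] at a2
      exact div_pos d (mul_pos (by rw [det3_rot]; exact A1 a) a2)
    · show 0 < W (r a) (p (a + 1)) (r (a + 1)) (p a)
      have d := hU (2, a) _ (opp_not_inc (2, a) 1)
      rw [D_rot _ _ _ 2] at d
      exact div_pos d (mul_pos (by rw [det3_rot]; exact A2 a) (by rw [← det3_rot]; exact A1 a))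
    · show 0 < W (r a) (r (a + 1)) S (p (a + 1))
      have d := hU (3, a) _ (opp_not_inc (3, a) 0)
      rw [D_rot _ _ _ 1] at d
      exact div_pos d (mul_pos (by rw [← det3_rot]; exact A3 a) (by rw [← det3_rot]; exact A2 a))
    · show 0 < W (r a) S (r (a + 4)) (r (a + 1))
      have d := hU (3, a + 4) (r (a + 1)) (by revert a; decide)
      rw [D_rot _ _ _ 2] at d
      have a3 := A3 (a + 4)
      have e : tri (3, a + 4) 2 = r a := congrArg r (f41 a)
      rw [e] at d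
      rw [f41] at a3
      exact div_pos d (mul_pos (by rw [det3_rot]; exact a3) (A3 a))
  have hl : Lift ω y l1 l2 l3 := by
    refine ⟨fun a => ?_, fun a => ?_, fun a => ?_, fun a => ?_⟩
    · have := interp_jump (v := y (r (a + 1))) (w := y S) (a := y (r a)) (b := y (r (a + 1 + 1)))
        (by rw [det3_rot]; exact (A3 a).ne') (A3 (a + 1)).ne' (z (r (a + 1))) (z S) (z (r a))
        (z (r (a + 1 + 1)))
      rw [interp_rot (y (r (a + 1)))] at this
      have e : ω (3, a + 1) = W (r (a + 1)) S (r a) (r (a + 1 + 1)) := by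
        show W (r (a + 1)) S (r (a + 1 + 4)) (r (a + 1 + 1)) = _
        rw [f14]
      rw [e]
      exact this
    · have := interp_jump (v := y (r a)) (w := y (r (a + 1))) (a := y S) (b := y (p (a + 1)))
        (by rw [← det3_rot]; exact (A3 a).ne') (by rw [← det3_rot]; exact (A2 a).ne')
        (z (r a)) (z (r (a + 1))) (z S) (z (p (a + 1)))
      rw [← interp_rot (y (p (a + 1))), ← interp_rot (y S)] at this
      exact this
    · have := interp_jump (v := y (r a)) (w := y (p (a + 1))) (a := y (r (a + 1))) (b := y (p a))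
        (by rw [det3_rot]; exact (A2 a).ne') (by rw [← det3_rot]; exact (A1 a).ne')
        (z (r a)) (z (p (a + 1))) (z (r (a + 1))) (z (p a))
      rw [← interp_rot (y (p a)), interp_rot (y (r a))] at this
      exact this
    · have := interp_jump (v := y (r (a + 1))) (w := y (p (a + 1))) (a := y (p (a + 1 + 1)))
        (b := y (r a)) (by rw [det3_rot]; exact (A1 (a + 1)).ne') (A2 a).ne'
        (z (r (a + 1))) (z (p (a + 1))) (z (p (a + 1 + 1))) (z (r a))
      rw [interp_rot (y (r (a + 1)))] at this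
      have e : ω (0, a + 1) = W (r (a + 1)) (p (a + 1)) (p (a + 1 + 1)) (r a) := by
        show W (r (a + 1)) (p (a + 1)) (p (a + 1 + 1)) (r (a + 1 + 4)) = _
        rw [f14]
      rw [e]
      exact this
  have hΘ : (y (p 4), ω, l3 0) ∈ Θ := by
    have d0 := hU (0, 0) (p 4) (by decide)
    have d2 := hU (0, 2) (p 4) (by decide)
    have d3 := hU (0, 3) (p 0) (by decide)
    rw [D0_eq hN hz] at d0 d2 d3
    have e0 : det3 (y (p 0)) (y (p 1)) (y (p 4)) = y (p 4) 2 := by simp [h0, h1, det3_def]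
    have e2 : det3 (y (p 2)) (y (p 3)) (y (p 4)) = y (p 4) 0 + y (p 4) 1 := by
      simp [h2, h3, det3_def]
    have e3 : det3 (y (p 3)) (y (p 4)) (y (p 0)) = -(y (p 4) 1 + y (p 4) 2) := by
      simp [h0, h3, det3_def]; ring
    exact ⟨d0.trans_eq e0, d2.trans_eq e2, neg_pos.1 (d3.trans_eq e3), hω⟩
  have hy : ysol (y (p 4), ω, l3 0) = y := by
    ext v k
    have : Lap ω *ᵥ (fun v => y v k) = fun w => bdata (y (p 4)) w k := by
      ext w
      by_cases hw : intr w = true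
      · rw [(harm_iff _ _).1 (hl.harm hs k) w hw]
        rcases w with _ | _ | a | a
        · rfl
        · rfl
        · exact absurd hw (by simp [intr])
        · rfl
      · rw [Lap_mulVec, if_neg hw]
        rcases w with _ | _ | a | a
        · rw [hN]; rfl
        · exact absurd rfl hw
        · fin_cases a
          · exact congrFun h0 k
          · exact congrFun h1 k
          · exact congrFun h2 k
          · exact congrFun h3 k
          · rfl
        · exact absurd rfl hw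
    show ((Lap ω)⁻¹ *ᵥ fun w => bdata (y (p 4)) w k) v = _
    rw [← this, mulVec_mulVec, nonsing_inv_mul _ (Ne.isUnit (Lap_det_ne hω)), one_mulVec]
  refine ⟨⟨_, hΘ⟩, ?_⟩
  show lift (ysol (y (p 4), ω, l3 0)) (hts (ysol (y (p 4), ω, l3 0))
    (L1 ω (ysol (y (p 4), ω, l3 0)) (l3 0)) (L3 ω (ysol (y (p 4), ω, l3 0)) (l3 0))) = _
  rw [hy, ← hl.unique.1, ← hl.unique.2]
  congr 1
  ext v
  rcases v with _ | _ | a | a
  · exact hz.symm
  · exact interp_1 (A3 0).ne' _ _ _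
  · exact interp_1 (A1 a).ne' _ _ _
  · exact interp_2 (A3 a).ne' _ _ _

theorem InR.act {U : Cfg} (hU : InR U) {g : Matrix (Fin 4) (Fin 4) ℝ} (hg : 0 < g.det) :
    InR (act g U) := by
  intro j i hi
  rw [D_eq]
  simp only [MP_bfbd14_co.act]
  rw [det4_mulVec, ← D_eq]
  exact mul_pos hg (hU j i hi)

theorem InR.scale {U : Cfg} (hU : InR U) {c : Vtx → ℝ} (hc : ∀ i, 0 < c i) :
    InR (fun i => c i • U i) := by
  intro j i hi
  have := hU j i hi
  have e : D (fun i => c i • U i) j i = c (tri j 0) * c (tri j 1) * c (tri j 2) * c i * D U j i := by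
    simp only [D_eq, det4_def, Pi.smul_apply, smul_eq_mul]
    ring
  rw [e]
  exact mul_pos (mul_pos (mul_pos (mul_pos (hc _) (hc _)) (hc _)) (hc _)) this

theorem exists_frame {U : Cfg} (hU : InR U) : ∃ g : Matrix (Fin 4) (Fin 4) ℝ, 0 < g.det ∧
    g *ᵥ U N = ![0, 0, 0, 1] ∧ (∃ c, g *ᵥ U (p 0) = ![c, 0, 0, 0]) ∧
    (∃ c, g *ᵥ U (p 1) = ![0, c, 0, 0]) ∧ (∃ c, g *ᵥ U (p 2) = ![0, 0, c, 0]) ∧
    (∃ c d, g *ᵥ U (p 3) = ![c, -c, c, d]) ∧ 0 < (g *ᵥ U (p 0)) 0 ∧ 0 < (g *ᵥ U (p 1)) 1 ∧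
    0 < (g *ᵥ U (p 3)) 0 ∧ 0 < (g *ᵥ U (p 2)) 2 := by
  have sw : ∀ a b c d : V4, det4 d b a c = det4 a b c d := fun a b c d => by
    simp only [det4_def]; ring
  have hD : 0 < det4 (U (p 0)) (U (p 1)) (U (p 2)) (U N) := sw _ _ _ _ ▸ hU (0, 0) (p 2) (by decide)
  have hα : 0 < det4 (U (p 1)) (U (p 2)) (U (p 3)) (U N) := sw _ _ _ _ ▸ hU (0, 1) (p 3) (by decide)
  have hβ : 0 < det4 (U (p 2)) (U (p 3)) (U (p 0)) (U N) := sw _ _ _ _ ▸ hU (0, 2) (p 0) (by decide)
  have hγ : 0 < det4 (U (p 0)) (U (p 1)) (U (p 3)) (U N) := sw _ _ _ _ ▸ hU (0, 0) (p 3) (by decide)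
  have hcr := cramer4 (U (p 0)) (U (p 1)) (U (p 2)) (U N) (U (p 3))
  have e1 : det4 (U (p 3)) (U (p 1)) (U (p 2)) (U N) = det4 (U (p 1)) (U (p 2)) (U (p 3)) (U N) := by
    simp only [det4_def]; ring
  have e2 : det4 (U (p 0)) (U (p 3)) (U (p 2)) (U N)
      = -det4 (U (p 2)) (U (p 3)) (U (p 0)) (U N) := by
    simp only [det4_def]; ring
  rw [e1, e2] at hcr
  set D0 := det4 (U (p 0)) (U (p 1)) (U (p 2)) (U N) with hD0
  set α := det4 (U (p 1)) (U (p 2)) (U (p 3)) (U N)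
  set β := det4 (U (p 2)) (U (p 3)) (U (p 0)) (U N)
  set γ := det4 (U (p 0)) (U (p 1)) (U (p 3)) (U N)
  set δ := det4 (U (p 0)) (U (p 1)) (U (p 2)) (U (p 3))
  let B : Matrix (Fin 4) (Fin 4) ℝ := (Matrix.of ![α • U (p 0), β • U (p 1), γ • U (p 2), U N])ᵀ
  have hB : B.det = α * β * γ * D0 := by
    rw [Matrix.det_transpose, ← det4_eq_det, hD0]
    simp only [det4_def, Pi.smul_apply, smul_eq_mul]
    ring
  have hBpos : 0 < B.det := by rw [hB]; positivity
  have hinv : ∀ x : V4, B⁻¹ *ᵥ (x 0 • α • U (p 0) + x 1 • β • U (p 1) + x 2 • γ • U (p 2)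
      + x 3 • U N) = x := by
    intro x
    have : B *ᵥ x = x 0 • α • U (p 0) + x 1 • β • U (p 1) + x 2 • γ • U (p 2) + x 3 • U N := by
      ext k
      simp [B, mulVec, dotProduct, Fin.sum_univ_four]
      ring
    rw [← this, mulVec_mulVec, nonsing_inv_mul _ (Ne.isUnit hBpos.ne'), one_mulVec]
  have k0 : B⁻¹ *ᵥ U (p 0) = ![α⁻¹, 0, 0, 0] := by
    rw [← hinv ![α⁻¹, 0, 0, 0]]
    simp [smul_smul, hα.ne']
  have k1 : B⁻¹ *ᵥ U (p 1) = ![0, β⁻¹, 0, 0] := by
    rw [← hinv ![0, β⁻¹, 0, 0]]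
    simp [smul_smul, hβ.ne']
  have k2 : B⁻¹ *ᵥ U (p 2) = ![0, 0, γ⁻¹, 0] := by
    rw [← hinv ![0, 0, γ⁻¹, 0]]
    simp [smul_smul, hγ.ne']
  have k3 : B⁻¹ *ᵥ U (p 3) = ![D0⁻¹, -D0⁻¹, D0⁻¹, D0⁻¹ * δ] := by
    rw [← hinv ![D0⁻¹, -D0⁻¹, D0⁻¹, D0⁻¹ * δ]]
    congr 1
    have : U (p 3) = D0⁻¹ • D0 • U (p 3) := by rw [smul_smul, inv_mul_cancel₀ hD.ne', one_smul]
    rw [this, hcr]
    simp only [Matrix.cons_val_zero, Matrix.cons_val_one, Matrix.cons_val, smul_add, smul_smul,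
      neg_smul, smul_neg, neg_mul]
  refine ⟨B⁻¹, by simpa using hBpos, ?_, ⟨_, k0⟩, ⟨_, k1⟩, ⟨_, k2⟩, ⟨_, _, k3⟩, ?_, ?_, ?_, ?_⟩
  · rw [← hinv ![0, 0, 0, 1]]
    simp
  · rw [k0]; simpa using hα
  · rw [k1]; simpa using hβ
  · rw [k3]; simpa using hD
  · rw [k2]; simpa using hγ

theorem exists_eqv_K {U : Cfg} (hU : InR U) : ∃ θ : Θ, InR (K θ.1) ∧ Eqv U (K θ.1) := by
  classical
  obtain ⟨g, hg, kN, ⟨c0, k0⟩, ⟨c1, k1⟩, ⟨c2, k2⟩, ⟨c3, d3, k3⟩, p0, p1, p3, p2⟩ := exists_frame hU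
  rw [k0] at p0
  rw [k1] at p1
  rw [k2] at p2
  rw [k3] at p3
  have p0 : 0 < c0 := p0
  have p1 : 0 < c1 := p1
  have p2 : 0 < c2 := p2
  have p3 : 0 < c3 := p3
  have h1 := hU.act hg
  have hge : ∀ j i, 0 ≤ D (act g U) j i := fun j i => by
    by_cases hi : inc i j
    · exact (D_inc _ j i hi).ge
    · exact (h1 j i hi).le
  have hsum : ∀ v, v ≠ N → 0 < act g U v 0 + act g U v 1 + act g U v 2 := by
    intro v hv
    have e0 : D (act g U) (0, 0) v = c0 * c1 * act g U v 2 := by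
      show det4 (g *ᵥ U N) (g *ᵥ U (p 1)) (g *ᵥ U (p 0)) (act g U v) = _
      rw [kN, k0, k1]
      simp [det4_def]
      ring
    have e2 : D (act g U) (0, 2) v = c2 * c3 * (act g U v 0 + act g U v 1) := by
      show det4 (g *ᵥ U N) (g *ᵥ U (p 3)) (g *ᵥ U (p 2)) (act g U v) = _
      rw [kN, k2, k3]
      simp [det4_def]
      ring
    have n0 : 0 ≤ act g U v 2 := nonneg_of_mul_nonneg_right (e0 ▸ hge (0, 0) v) (mul_pos p0 p1)
    have n2 : 0 ≤ act g U v 0 + act g U v 1 :=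
      nonneg_of_mul_nonneg_right (e2 ▸ hge (0, 2) v) (mul_pos p2 p3)
    have : ¬ inc v (0, 0) ∨ ¬ inc v (0, 2) :=
      (by decide : ∀ v, v ≠ N → ¬ inc v (0, 0) ∨ ¬ inc v (0, 2)) v hv
    rcases this with hi | hi
    · have := (mul_pos_iff_of_pos_left (mul_pos p0 p1)).1 (e0 ▸ h1 _ _ hi)
      linarith
    · have := (mul_pos_iff_of_pos_left (mul_pos p2 p3)).1 (e2 ▸ h1 _ _ hi)
      linarith
  let c : Vtx → ℝ := fun v => if v = N then 1 else (act g U v 0 + act g U v 1 + act g U v 2)⁻¹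
  have hc : ∀ v, 0 < c v := fun v => by
    simp only [c]
    split_ifs with hv
    · exact one_pos
    · exact inv_pos.2 (hsum v hv)
  have h2 := h1.scale hc
  let y : Vtx → V3 := fun v k => (c v • act g U v) k.castSucc
  let z : Vtx → ℝ := fun v => (c v • act g U v) 3
  have e : (fun v => c v • act g U v) = lift y z := by
    ext v k
    fin_cases k <;> rfl
  obtain ⟨θ, hθ⟩ := exists_par (y := y) (z := z) (e ▸ h2)
    (by apply ext3 <;> simp [y, act, kN])
    (by simp [z, c, act, kN])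
    (by apply ext3 <;> simp [y, c, act, k0, p0.ne'])
    (by apply ext3 <;> simp [y, c, act, k1, p1.ne'])
    (by apply ext3 <;> simp [y, c, act, k2, p2.ne'])
    (by apply ext3 <;> simp [y, c, act, k3, p3.ne'])
    (fun v hv => by
      have := (hsum v hv).ne'
      show c v * act g U v 0 + c v * act g U v 1 + c v * act g U v 2 = 1
      simp only [c, if_neg hv]
      field_simp)
  refine ⟨θ, by rw [hθ, ← e]; exact h2, ?_⟩
  rw [hθ, ← e]
  exact Eqv.trans h1.hg (eqv_act U hg.ne') (eqv_scale h1.hg hc)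

theorem rel_of_isDodecahedron {P Q : Set V3} (hP : IsDodecahedron P) (hQ : IsDodecahedron Q) :
    Rel P Q := by
  obtain ⟨U, Y, hU, rfl⟩ := exists_adm_of_isDodecahedron hP
  obtain ⟨U', Y', hU', rfl⟩ := exists_adm_of_isDodecahedron hQ
  obtain ⟨g, hg, hR⟩ := hU.1.exists_inR
  obtain ⟨g', hg', hR'⟩ := hU'.1.exists_inR
  obtain ⟨θ, hθ, e⟩ := exists_eqv_K hR
  obtain ⟨θ', hθ', e'⟩ := exists_eqv_K hR'
  have k1 : Eqv U (K θ.1) := Eqv.trans hR.hg (eqv_act U hg) e
  have k2 : Eqv U' (K θ'.1) := Eqv.trans hR'.hg (eqv_act U' hg') e'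
  have k : Eqv U U' := Eqv.trans hθ'.hg (Eqv.trans hθ.hg k1 (eqv_K hθ θ')) k2.symm
  exact k 1 1 Y Y' (by simp) (by simp) (by rwa [act_one]) (by rwa [act_one])

end Pool.Agent.P.MP_bfbd14_co
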