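import Pool.Agent.P.MP_bfbd14_co.Defs
import Pool.Agent.P.MP_bfbd14_co.Comb

/-! Polytopes with the vertex-facet incidences of the dodecahedron. -/

set_option autoImplicit false

open Matrix

namespace Pool.Agent.P.MP_bfbd14_co

theorem exists_vec (l : StrongDual ℝ V3) : ∃ n : V3, ∀ x, l x = n ⬝ᵥ x := by
  refine ⟨fun i => l (Pi.single i 1), fun x => ?_⟩
  have hx : x = ∑ i, x i • (Pi.single i 1 : V3) := by
    ext k
    simp [Pi.single_apply]
  conv_lhs => rw [hx]
  simp [dotProduct, mul_comm]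

/-- The continuous functional given by a vector. -/
noncomputable def dualOf (n : V3) : StrongDual ℝ V3 :=
  LinearMap.toContinuousLinearMap
    { toFun := fun x => n ⬝ᵥ x
      map_add' := fun x y => by simp
      map_smul' := fun c x => by simp }

theorem isExposed_face (P : Set V3) (n : V3) : IsExposed ℝ P (face P n) :=
  fun _ => ⟨dualOf n, rfl⟩

theorem exposed_eq_face {P F : Set V3} (h : IsExposed ℝ P F) (hF : F.Nonempty) :
    ∃ n, F = face P n := by
  obtain ⟨l, hl⟩ := h hF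
  obtain ⟨n, hn⟩ := exists_vec l
  refine ⟨n, ?_⟩
  rw [hl]
  simp only [face, hn]

theorem convex_le (n : V3) (c : ℝ) : Convex ℝ {x : V3 | n ⬝ᵥ x ≤ c} :=
  convex_halfSpace_le ⟨fun x y => by simp, fun c x => by simp⟩ c

theorem convex_ge (n : V3) (c : ℝ) : Convex ℝ {x : V3 | c ≤ n ⬝ᵥ x} :=
  convex_halfSpace_ge ⟨fun x y => by simp, fun c x => by simp⟩ c

theorem le_of_mem_hull {S : Set V3} {n : V3} {c : ℝ} (h : ∀ y ∈ S, n ⬝ᵥ y ≤ c) {x : V3}
    (hx : x ∈ convexHull ℝ S) : n ⬝ᵥ x ≤ c :=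
  convexHull_min (t := {x : V3 | n ⬝ᵥ x ≤ c}) h (convex_le n c) hx

theorem mem_face_iff {S : Set V3} {n x : V3} (hx : x ∈ S) :
    x ∈ face (convexHull ℝ S) n ↔ ∀ y ∈ S, n ⬝ᵥ y ≤ n ⬝ᵥ x :=
  ⟨fun h y hy => h.2 y (subset_convexHull ℝ S hy),
    fun h => ⟨subset_convexHull ℝ S hx, fun _ hy => le_of_mem_hull h hy⟩⟩

theorem convex_face {P : Set V3} (hP : Convex ℝ P) (n : V3) : Convex ℝ (face P n) :=
  (isExposed_face P n).convex hP

theorem face_convexHull (S : Set V3) (n : V3) :
    face (convexHull ℝ S) n = convexHull ℝ (S ∩ face (convexHull ℝ S) n) := by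
  apply Set.Subset.antisymm
  · intro x hx
    have hx1 := hx.1
    rw [convexHull_eq] at hx1
    obtain ⟨ι, t, w, z, hw0, hw1, hz, hxc⟩ := hx1
    have hle : ∀ i ∈ t, n ⬝ᵥ z i ≤ n ⬝ᵥ x := fun i hi => hx.2 _ (subset_convexHull ℝ S (hz i hi))
    have hsum : ∑ i ∈ t, w i * (n ⬝ᵥ x - n ⬝ᵥ z i) = 0 := by
      have : n ⬝ᵥ x = ∑ i ∈ t, w i * (n ⬝ᵥ z i) := by
        rw [← hxc, Finset.centerMass_eq_of_sum_1 _ _ hw1, dotProduct_sum]
        simp
      simp only [mul_sub]
      rw [Finset.sum_sub_distrib, ← Finset.sum_mul, hw1, ← this]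
      ring
    have hz0 := (Finset.sum_eq_zero_iff_of_nonneg (fun i hi =>
      mul_nonneg (hw0 i hi) (sub_nonneg.2 (hle i hi)))).1 hsum
    classical
    rw [← hxc, ← Finset.centerMass_filter_ne_zero]
    apply Finset.centerMass_mem_convexHull
    · intro i hi
      exact hw0 i (Finset.mem_filter.1 hi).1
    · rw [Finset.sum_filter_ne_zero, hw1]; exact one_pos
    · intro i hi
      obtain ⟨hi1, hi2⟩ := Finset.mem_filter.1 hi
      have : n ⬝ᵥ x = n ⬝ᵥ z i := sub_eq_zero.1 ((mul_eq_zero.1 (hz0 i hi1)).resolve_left hi2)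
      exact ⟨hz i hi1, subset_convexHull ℝ S (hz i hi1), fun y hy => this ▸ hx.2 y hy⟩
  · exact convexHull_min Set.inter_subset_right (convex_face (convex_convexHull ℝ S) n)

theorem exposed_eq_hull {S F : Set V3} (h : IsExposed ℝ (convexHull ℝ S) F) :
    F = convexHull ℝ (S ∩ F) := by
  rcases F.eq_empty_or_nonempty with rfl | hF
  · simp
  · obtain ⟨n, rfl⟩ := exposed_eq_face h hF
    exact face_convexHull S n

/-- Every polytope is the hull of finitely many exposed points. -/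
theorem exists_exposed_vertices {P : Set V3} (hP : IsPolytope P) :
    ∃ V : Finset V3, P = convexHull ℝ (V : Set V3) ∧ ∀ v ∈ V, IsExposed ℝ P {v} := by
  classical
  obtain ⟨V₀, hV₀⟩ := hP
  have hex : ∃ k, ∃ V : Finset V3, V.card = k ∧ P = convexHull ℝ (V : Set V3) := ⟨_, V₀, rfl, hV₀⟩
  obtain ⟨V, hk, hV⟩ := Nat.find_spec hex
  refine ⟨V, hV, fun v hv => ?_⟩
  have hnot : v ∉ convexHull ℝ ((V.erase v : Finset V3) : Set V3) := by
    intro hin
    have : P = convexHull ℝ ((V.erase v : Finset V3) : Set V3) := by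
      rw [hV]
      apply Set.Subset.antisymm
      · apply convexHull_min _ (convex_convexHull ℝ _)
        intro x hx
        by_cases hxv : x = v
        · rw [hxv]; exact hin
        · exact subset_convexHull ℝ _ (by simpa [hxv] using hx)
      · exact convexHull_mono (by simp)
    exact Nat.find_min hex (by rw [← hk]; exact Finset.card_erase_lt_of_mem hv) ⟨_, rfl, this⟩
  obtain ⟨l, u, h1, h2⟩ := geometric_hahn_banach_closed_point (convex_convexHull ℝ _)
    ((V.erase v).finite_toSet.isClosed_convexHull ℝ) hnot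
  obtain ⟨n, hn⟩ := exists_vec l
  have hlt : ∀ y ∈ V, y ≠ v → n ⬝ᵥ y < n ⬝ᵥ v := by
    intro y hy hyv
    rw [← hn, ← hn]
    exact (h1 y (subset_convexHull ℝ _ (by simp [hy, hyv]))).trans h2
  have hface : (V : Set V3) ∩ face (convexHull ℝ (V : Set V3)) n = {v} := by
    ext y
    constructor
    · rintro ⟨hy, hy2⟩
      by_contra hne
      exact absurd ((mem_face_iff hy).1 hy2 v hv) (not_le.2 (hlt y hy hne))
    · intro hy0
      rw [Set.mem_singleton_iff.1 hy0]
      refine ⟨hv, (mem_face_iff (Finset.mem_coe.2 hv)).2 fun y hy => ?_⟩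
      by_cases hyv : y = v
      · rw [hyv]
      · exact (hlt y hy hyv).le
  have : face P n = {v} := by
    rw [hV, face_convexHull, hface, convexHull_singleton]
  rw [← this]
  exact isExposed_face P n

/-- Vertices `v`, facet normals `a` and heights `b` with the incidences of the dodecahedron. -/
def Good (v : Fc → V3) (a : Vtx → V3) (b : Vtx → ℝ) : Prop :=
  ∀ i j, (inc i j → a i ⬝ᵥ v j = b i) ∧ (¬ inc i j → a i ⬝ᵥ v j < b i)

/-- The vertices lying on all facets of `I`. -/
def M (I : Set Vtx) : Set Fc := {j | ∀ i ∈ I, inc i j}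

section Good

variable {v : Fc → V3} {a : Vtx → V3} {b : Vtx → ℝ}

theorem Good.le (h : Good v a b) (i : Vtx) (j : Fc) : a i ⬝ᵥ v j ≤ b i := by
  by_cases hi : inc i j
  · exact ((h i j).1 hi).le
  · exact ((h i j).2 hi).le

theorem Good.eq_iff (h : Good v a b) (i : Vtx) (j : Fc) : a i ⬝ᵥ v j = b i ↔ inc i j :=
  ⟨fun he => by_contra fun hc => ((h i j).2 hc).ne he, (h i j).1⟩

theorem Good.edge_ne (h : Good v a b) (j : Fc) {m m' : Fin 3} (hm : m' ≠ m) :
    a (tri j m') ⬝ᵥ (v (nb j m) - v j) = 0 := by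
  rw [dotProduct_sub, (h _ _).1 ((nb_inc j m m').2 hm), (h _ _).1 (inc_tri j m'), sub_self]

theorem Good.edge_self (h : Good v a b) (j : Fc) (m : Fin 3) :
    a (tri j m) ⬝ᵥ (v (nb j m) - v j) < 0 := by
  rw [dotProduct_sub, (h _ _).1 (inc_tri j m), sub_neg]
  exact (h _ _).2 (fun hc => (nb_inc j m m).1 hc rfl)

/-- Decomposition of a vector in the basis of the three facet normals at a vertex. -/
theorem Good.decomp (h : Good v a b) (j : Fc) (n : V3) :
    n = ∑ m, ((n ⬝ᵥ (v (nb j m) - v j)) / (a (tri j m) ⬝ᵥ (v (nb j m) - v j))) • a (tri j m) := by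
  let A : Matrix (Fin 3) (Fin 3) ℝ := Matrix.of fun m => a (tri j m)
  let W : Matrix (Fin 3) (Fin 3) ℝ := Matrix.of fun k m => (v (nb j m) - v j) k
  have hAW : A * W = Matrix.diagonal fun m => a (tri j m) ⬝ᵥ (v (nb j m) - v j) := by
    ext m m'
    by_cases hm : m = m'
    · subst hm
      simp [A, W, Matrix.mul_apply, dotProduct]
    · rw [Matrix.diagonal_apply_ne _ hm, ← h.edge_ne j hm]
      simp [A, W, Matrix.mul_apply, dotProduct]
  have hW : W.det ≠ 0 := by
    intro h0
    have := congrArg Matrix.det hAW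
    rw [Matrix.det_mul, h0, mul_zero, Matrix.det_diagonal] at this
    exact Finset.prod_ne_zero_iff.2 (fun m _ => (h.edge_self j m).ne) this.symm
  rw [← sub_eq_zero]
  apply Matrix.eq_zero_of_vecMul_eq_zero hW
  ext m
  have : ∀ x : V3, (x ᵥ* W) m = x ⬝ᵥ (v (nb j m) - v j) := fun x => by
    simp [W, Matrix.vecMul, dotProduct]
  rw [this, sub_dotProduct, sum_dotProduct, Finset.sum_eq_single m]
  · rw [smul_dotProduct, smul_eq_mul, div_mul_cancel₀ _ (h.edge_self j m).ne]
    simp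
  · intro m' _ hm'
    rw [smul_dotProduct, h.edge_ne j hm', smul_zero]
  · simp

/-- The normal cone at a vertex is spanned by the three facet normals. -/
theorem Good.classify (h : Good v a b) (n : V3) :
    ∃ (j : Fc) (γ : Fin 3 → ℝ), (∀ m, 0 ≤ γ m) ∧ n = ∑ m, γ m • a (tri j m) ∧
      ∀ j', v j' ∈ face (convexHull ℝ (Set.range v)) n ↔ ∀ m, γ m ≠ 0 → inc (tri j m) j' := by
  obtain ⟨j, -, hj⟩ := Finset.exists_max_image Finset.univ (fun j => n ⬝ᵥ v j)
    Finset.univ_nonempty
  set γ : Fin 3 → ℝ := fun m =>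
    (n ⬝ᵥ (v (nb j m) - v j)) / (a (tri j m) ⬝ᵥ (v (nb j m) - v j)) with hγ
  have hγ0 : ∀ m, 0 ≤ γ m := fun m =>
    div_nonneg_of_nonpos (by rw [dotProduct_sub, sub_nonpos]; exact hj _ (Finset.mem_univ _))
      (h.edge_self j m).le
  have hn : n = ∑ m, γ m • a (tri j m) := h.decomp j n
  refine ⟨j, γ, hγ0, hn, fun j' => ?_⟩
  have hdiff : n ⬝ᵥ v j - n ⬝ᵥ v j' = ∑ m, γ m * (b (tri j m) - a (tri j m) ⬝ᵥ v j') := by
    conv_lhs => rw [hn]
    rw [sum_dotProduct, sum_dotProduct, ← Finset.sum_sub_distrib]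
    refine Finset.sum_congr rfl fun m _ => ?_
    rw [smul_dotProduct, smul_dotProduct, (h _ _).1 (inc_tri j m)]
    simp [mul_sub]
  rw [mem_face_iff (Set.mem_range_self j')]
  constructor
  · intro hmax m hm
    have h0 : n ⬝ᵥ v j - n ⬝ᵥ v j' = 0 :=
      sub_eq_zero.2 (le_antisymm (hmax _ (Set.mem_range_self j)) (hj _ (Finset.mem_univ _)))
    rw [hdiff] at h0
    have := (Finset.sum_eq_zero_iff_of_nonneg (fun m _ =>
      mul_nonneg (hγ0 m) (sub_nonneg.2 (h.le _ _)))).1 h0 m (Finset.mem_univ _)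
    exact (h.eq_iff _ _).1 (sub_eq_zero.1 ((mul_eq_zero.1 this).resolve_left hm)).symm
  · rintro hinc _ ⟨j'', rfl⟩
    have h0 : n ⬝ᵥ v j - n ⬝ᵥ v j' = 0 := by
      rw [hdiff]
      refine Finset.sum_eq_zero fun m _ => ?_
      by_cases hm : γ m = 0
      · rw [hm, zero_mul]
      · rw [(h _ _).1 (hinc m hm), sub_self, mul_zero]
    have := hj j'' (Finset.mem_univ _)
    linarith

theorem Good.face_sum (h : Good v a b) (I : Finset Vtx) {j : Fc} (hj : ∀ i ∈ I, inc i j) (j' : Fc) :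
    v j' ∈ face (convexHull ℝ (Set.range v)) (∑ i ∈ I, a i) ↔ ∀ i ∈ I, inc i j' := by
  rw [mem_face_iff (Set.mem_range_self j')]
  have hsum : ∀ j'', (∑ i ∈ I, a i) ⬝ᵥ v j'' ≤ ∑ i ∈ I, b i := fun j'' => by
    rw [sum_dotProduct]; exact Finset.sum_le_sum fun i _ => h.le i j''
  have heq : ∀ j'', (∀ i ∈ I, inc i j'') → (∑ i ∈ I, a i) ⬝ᵥ v j'' = ∑ i ∈ I, b i := fun j'' hj'' => by
    rw [sum_dotProduct]; exact Finset.sum_congr rfl fun i hi => (h i j'').1 (hj'' i hi)
  constructor
  · intro hmax i hi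
    have h1 := hmax _ (Set.mem_range_self j)
    rw [heq j hj, sum_dotProduct] at h1
    by_contra hc
    have := Finset.sum_lt_sum (s := I) (f := fun i => a i ⬝ᵥ v j') (g := b)
      (fun i _ => h.le i j') ⟨i, hi, (h i j').2 hc⟩
    linarith
  · rintro hj' _ ⟨j'', rfl⟩
    rw [heq j' hj']
    exact hsum j''

theorem hull_vertices {F : Set V3} (hF : IsExposed ℝ (convexHull ℝ (Set.range v)) F) :
    F = convexHull ℝ (v '' {j | v j ∈ F}) := by
  conv_lhs => rw [exposed_eq_hull hF]
  congr 1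
  ext x
  constructor
  · rintro ⟨⟨j, rfl⟩, hx⟩; exact ⟨j, hx, rfl⟩
  · rintro ⟨j, hj, rfl⟩; exact ⟨⟨j, rfl⟩, hj⟩

theorem M_univ : M Set.univ = ∅ := by
  ext j
  simp only [M, Set.mem_univ, forall_true_left, Set.mem_ofPred_eq, Set.mem_empty_iff_false,
    iff_false]
  exact fun h => opp_not_inc j 0 (h _)

/-- The face lattice of a good polytope is the combinatorial lattice. -/
theorem Good.orderIso (h : Good v a b) :
    Nonempty (FaceLattice (convexHull ℝ (Set.range v)) ≃o {S : Set Fc // ∃ I, S = M I}) := by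
  classical
  have hmem : ∀ F : FaceLattice (convexHull ℝ (Set.range v)), ∃ I, {j | v j ∈ F.1} = M I := by
    rintro ⟨F, hF⟩
    rcases F.eq_empty_or_nonempty with rfl | hne
    · exact ⟨Set.univ, by rw [M_univ]; simp⟩
    · obtain ⟨n, rfl⟩ := exposed_eq_face hF hne
      obtain ⟨j, γ, -, -, hj⟩ := h.classify n
      refine ⟨{i | ∃ m, γ m ≠ 0 ∧ tri j m = i}, ?_⟩
      ext j'
      simp only [Set.mem_ofPred_eq, hj, M]
      constructor
      · rintro H i ⟨m, hm, rfl⟩; exact H m hm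
      · intro H m hm; exact H _ ⟨m, hm, rfl⟩
  let f : FaceLattice (convexHull ℝ (Set.range v)) → {S : Set Fc // ∃ I, S = M I} :=
    fun F => ⟨{j | v j ∈ F.1}, hmem F⟩
  have hle : ∀ F G, f F ≤ f G ↔ F ≤ G := by
    intro F G
    constructor
    · intro H
      show F.1 ⊆ G.1
      rw [hull_vertices F.2, hull_vertices G.2]
      exact convexHull_mono (Set.image_mono H)
    · intro H j hj
      exact H hj
  refine ⟨RelIso.ofSurjective (OrderEmbedding.ofMapLEIff f hle) ?_⟩
  rintro ⟨S, I, rfl⟩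
  rcases (M I).eq_empty_or_nonempty with he | ⟨j, hj⟩
  · refine ⟨⟨∅, isExposed_empty⟩, Subtype.ext ?_⟩
    show {j | v j ∈ (∅ : Set V3)} = M I
    rw [he]; simp
  · refine ⟨⟨_, isExposed_face _ (∑ i ∈ I.toFinset, a i)⟩, Subtype.ext ?_⟩
    show {j | v j ∈ face _ _} = M I
    ext j'
    rw [Set.mem_ofPred_eq, h.face_sum I.toFinset (j := j) (fun i hi => hj i (by simpa using hi))]
    simp [M]

theorem Good.face_facet (h : Good v a b) (i : Vtx) {t : ℝ} (ht : 0 < t) (j' : Fc) :
    v j' ∈ face (convexHull ℝ (Set.range v)) (t • a i) ↔ inc i j' := by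
  obtain ⟨j, m, rfl⟩ := tri_surj i
  have := h.face_sum {tri j m} (j := j) (by simpa using inc_tri j m) j'
  simp only [Finset.sum_singleton, Finset.mem_singleton, forall_eq] at this
  rw [← this]
  simp only [face, Set.mem_ofPred_eq, smul_dotProduct, smul_eq_mul, mul_le_mul_iff_right₀ ht]

theorem vectorSpan_hull (S : Set V3) : vectorSpan ℝ (convexHull ℝ S) = vectorSpan ℝ S := by
  rw [← direction_affineSpan, affineSpan_convexHull, direction_affineSpan]

theorem fin3_ne : ∀ m : Fin 3, m + 1 ≠ m ∧ m + 2 ≠ m ∧ m + 1 ≠ m + 2 := by decide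

theorem fin3_third : ∀ m₁ m₂ : Fin 3, m₁ ≠ m₂ → ∃ m, ∀ m', m' ≠ m → m' = m₁ ∨ m' = m₂ := by decide

/-- The facet normals of a good polytope. -/
theorem Good.facetNormals_eq (h : Good v a b) :
    facetNormals (convexHull ℝ (Set.range v)) = {n | ∃ i, ∃ t : ℝ, 0 < t ∧ n = t • a i} := by
  ext n
  constructor
  · rintro ⟨hn0, hrank⟩
    obtain ⟨j, γ, hγ, hn, hj⟩ := h.classify n
    by_contra hc
    have hex : ∃ m, γ m ≠ 0 := by
      by_contra hc2
      push Not at hc2
      exact hn0 (by rw [hn]; simp [hc2])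
    obtain ⟨m₁, hm₁⟩ := hex
    have hex2 : ∃ m₂, m₂ ≠ m₁ ∧ γ m₂ ≠ 0 := by
      by_contra hc2
      push Not at hc2
      apply hc
      refine ⟨tri j m₁, γ m₁, lt_of_le_of_ne (hγ _) hm₁.symm, ?_⟩
      rw [hn, Finset.sum_eq_single m₁ (fun m _ hm => by rw [hc2 m hm, zero_smul]) (by simp)]
    obtain ⟨m₂, hne, hm₂⟩ := hex2
    obtain ⟨m, hm⟩ := fin3_third m₁ m₂ hne.symm
    have hsub : face (convexHull ℝ (Set.range v)) n ⊆ convexHull ℝ {v j, v (nb j m)} := by
      rw [hull_vertices (isExposed_face _ n)]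
      apply convexHull_mono
      rintro _ ⟨j', hj', rfl⟩
      have := eq_or_nb j j' m (fun m' hm' => (hj j').1 hj' m' (by
        rcases hm m' hm' with rfl | rfl <;> assumption))
      rcases this with rfl | rfl <;> simp
    have h1 := Submodule.finrank_mono (vectorSpan_mono ℝ hsub)
    rw [vectorSpan_hull, hrank] at h1
    have h2 : Module.finrank ℝ (vectorSpan ℝ ({v j, v (nb j m)} : Set V3)) ≤ 1 :=
      (collinear_iff_finrank_le_one).1 (collinear_pair ℝ _ _)
    omega
  · rintro ⟨i, t, ht, rfl⟩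
    obtain ⟨j, m, rfl⟩ := tri_surj i
    have ha : a (tri j m) ≠ 0 := by
      intro h0
      have := h.edge_self j m
      rw [h0, zero_dotProduct] at this
      exact lt_irrefl _ this
    refine ⟨smul_ne_zero ht.ne' ha, le_antisymm ?_ ?_⟩
    · have hlt : vectorSpan ℝ (face (convexHull ℝ (Set.range v)) (t • a (tri j m))) < ⊤ := by
        have hle : vectorSpan ℝ (face (convexHull ℝ (Set.range v)) (t • a (tri j m)))
            ≤ LinearMap.ker (dualOf (t • a (tri j m))).toLinearMap := by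
          rw [vectorSpan_def, Submodule.span_le]
          rintro _ ⟨x, hx, y, hy, rfl⟩
          show (t • a (tri j m)) ⬝ᵥ (x - y) = 0
          rw [dotProduct_sub, sub_eq_zero]
          exact le_antisymm (hy.2 x hx.1) (hx.2 y hy.1)
        refine lt_of_le_of_lt hle (lt_top_iff_ne_top.2 fun htop => ?_)
        have : (t • a (tri j m)) ⬝ᵥ (t • a (tri j m)) = 0 :=
          (htop ▸ Submodule.mem_top : t • a (tri j m) ∈
            LinearMap.ker (dualOf (t • a (tri j m))).toLinearMap)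
        exact smul_ne_zero ht.ne' ha (dotProduct_self_eq_zero.1 this)
      have := Submodule.finrank_lt_finrank_of_lt hlt
      simp only [finrank_top, Module.finrank_fintype_fun_eq_card, Fintype.card_fin] at this
      omega
    · obtain ⟨hm1, hm2, hm12⟩ := fin3_ne m
      have hli : LinearIndependent ℝ ![v (nb j (m + 1)) - v j, v (nb j (m + 2)) - v j] := by
        rw [LinearIndependent.pair_iff]
        intro s u hsu
        have e1 := congrArg (fun x => a (tri j (m + 1)) ⬝ᵥ x) hsu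
        have e2 := congrArg (fun x => a (tri j (m + 2)) ⬝ᵥ x) hsu
        simp only [dotProduct_add, dotProduct_smul, h.edge_ne j hm12, h.edge_ne j hm12.symm,
          smul_eq_mul, mul_zero, add_zero, zero_add, dotProduct_zero] at e1 e2
        exact ⟨(mul_eq_zero.1 e1).resolve_right (h.edge_self j _).ne,
          (mul_eq_zero.1 e2).resolve_right (h.edge_self j _).ne⟩
      have hj : v j ∈ face (convexHull ℝ (Set.range v)) (t • a (tri j m)) :=
        (h.face_facet _ ht j).2 (inc_tri j m)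
      have hle : Submodule.span ℝ (Set.range ![v (nb j (m + 1)) - v j, v (nb j (m + 2)) - v j])
          ≤ vectorSpan ℝ (face (convexHull ℝ (Set.range v)) (t • a (tri j m))) := by
        rw [Submodule.span_le]
        rintro _ ⟨k, rfl⟩
        fin_cases k
        · exact vsub_mem_vectorSpan ℝ ((h.face_facet _ ht _).2 ((nb_inc j _ m).2 hm1.symm)) hj
        · exact vsub_mem_vectorSpan ℝ ((h.face_facet _ ht _).2 ((nb_inc j _ m).2 hm2.symm)) hj
      have := Submodule.finrank_mono hle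
      rw [finrank_span_eq_card hli] at this
      simpa using this

end Good

/-- A polytope with the combinatorial face lattice is good. -/
theorem good_of_orderIso {P : Set V3} (hP : IsPolytope P)
    (Ψ : FaceLattice P ≃o {S : Set Fc // ∃ I, S = M I}) :
    ∃ v a b, Good v a b ∧ P = convexHull ℝ (Set.range v) := by
  obtain ⟨V, hV, hexp⟩ := exists_exposed_vertices hP
  let bot : {S : Set Fc // ∃ I, S = M I} := ⟨∅, Set.univ, M_univ.symm⟩
  let emp : FaceLattice P := ⟨∅, isExposed_empty⟩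
  have hbot : Ψ emp = bot := by
    apply le_antisymm
    · rw [← Ψ.le_symm_apply]
      exact Set.empty_subset _
    · exact Set.empty_subset _
  have hne : ∀ F : FaceLattice P, F.1.Nonempty ↔ (Ψ F).1.Nonempty := by
    intro F
    rw [Set.nonempty_iff_ne_empty, Set.nonempty_iff_ne_empty, not_iff_not]
    constructor
    · intro h
      have : F = emp := Subtype.ext h
      rw [this, hbot]
    · intro h
      have : Ψ F = Ψ emp := by rw [hbot]; exact Subtype.ext h
      rw [Ψ.injective this]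
  have hsing : ∀ j : Fc, ({j} : Set Fc) = M (Set.range (tri j)) := by
    intro j
    ext j'
    simp only [Set.mem_singleton_iff, M, Set.mem_range, forall_exists_index,
      forall_apply_eq_imp_iff, Set.mem_ofPred_eq]
    exact ⟨fun h => h ▸ inc_tri j, eq_of_inc j j'⟩
  let sing : Fc → {S : Set Fc // ∃ I, S = M I} := fun j => ⟨{j}, _, hsing j⟩
  have hvert : ∀ F : FaceLattice P, F.1.Nonempty → ∃ x ∈ V, x ∈ F.1 := by
    rintro ⟨F, hF⟩ hFne
    by_contra hc
    push Not at hc
    have h1 : (V : Set V3) ∩ F = ∅ := Set.eq_empty_of_forall_notMem fun x hx => hc x hx.1 hx.2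
    rw [hV] at hF
    have := exposed_eq_hull hF
    rw [h1, convexHull_empty] at this
    exact hFne.ne_empty this
  have hG : ∀ j, ∃ x ∈ V, (Ψ.symm (sing j)).1 = {x} := by
    intro j
    obtain ⟨x, hxV, hx⟩ := hvert (Ψ.symm (sing j))
      ((hne _).2 (by rw [Ψ.apply_symm_apply]; exact Set.singleton_nonempty j))
    refine ⟨x, hxV, ?_⟩
    let Fx : FaceLattice P := ⟨{x}, hexp x hxV⟩
    have h1 : Ψ Fx ≤ sing j := by
      rw [← Ψ.le_symm_apply]
      exact Set.singleton_subset_iff.2 hx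
    have h2 : Ψ Fx = sing j := Subtype.ext
      ((((hne Fx).1 (Set.singleton_nonempty x)).subset_singleton_iff).1 h1)
    rw [← h2, Ψ.symm_apply_apply]
  choose v hvV hv using hG
  have hrange : (V : Set V3) = Set.range v := by
    apply Set.Subset.antisymm
    · intro x hx
      let Fx : FaceLattice P := ⟨{x}, hexp x hx⟩
      obtain ⟨j, hj⟩ := (hne Fx).1 (Set.singleton_nonempty x)
      have h1 : Ψ.symm (sing j) ≤ Fx := by
        rw [Ψ.symm_apply_le]
        exact Set.singleton_subset_iff.2 hj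
      have h2 : (Ψ.symm (sing j)).1 ⊆ {x} := h1
      rw [hv j] at h2
      exact ⟨j, h2 rfl⟩
    · rintro _ ⟨j, rfl⟩
      exact hvV j
  let fac : Vtx → {S : Set Fc // ∃ I, S = M I} := fun i => ⟨M {i}, _, rfl⟩
  have hmem : ∀ i j, v j ∈ (Ψ.symm (fac i)).1 ↔ inc i j := by
    intro i j
    rw [← Set.singleton_subset_iff, ← hv j]
    show Ψ.symm (sing j) ≤ Ψ.symm (fac i) ↔ _
    rw [Ψ.symm.le_iff_le]
    show ({j} : Set Fc) ⊆ M {i} ↔ _
    simp [M]
  choose j₀ m₀ hj₀ using tri_surj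
  have hinc₀ : ∀ i, inc i (j₀ i) := fun i => by
    have := inc_tri (j₀ i) (m₀ i)
    rwa [hj₀] at this
  have hA : ∀ i, ∃ n, (Ψ.symm (fac i)).1 = face P n := fun i =>
    exposed_eq_face (Ψ.symm (fac i)).2 ⟨_, (hmem i _).2 (hinc₀ i)⟩
  choose a ha using hA
  have hvP : ∀ j, v j ∈ P := fun j => hV ▸ subset_convexHull ℝ _ (hvV j)
  refine ⟨v, a, fun i => a i ⬝ᵥ v (j₀ i), fun i j => ?_, by rw [← hrange]; exact hV⟩
  have h0 : v (j₀ i) ∈ face P (a i) := ha i ▸ (hmem i _).2 (hinc₀ i)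
  constructor
  · intro hi
    have h1 : v j ∈ face P (a i) := ha i ▸ (hmem i _).2 hi
    exact le_antisymm (h0.2 _ (hvP j)) (h1.2 _ (hvP _))
  · intro hi
    refine lt_of_le_of_ne (h0.2 _ (hvP j)) fun he => hi ((hmem i j).1 ?_)
    rw [ha i]
    exact ⟨hvP j, fun y hy => he ▸ h0.2 y hy⟩

end Pool.Agent.P.MP_bfbd14_co
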