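import Pool.Agent.P.MP_bfbd14_co.Poly

/-! The regular dodecahedron has the incidences of the combinatorial model. -/

set_option autoImplicit false

open Matrix

namespace Pool.Agent.P.MP_bfbd14_co

/-- The number `m + n φ`. -/
noncomputable def ev (x : ℤ × ℤ) : ℝ := x.1 + x.2 * Real.goldenRatio

/-- Multiplication of numbers `m + n φ`. -/
def mulZ (x y : ℤ × ℤ) : ℤ × ℤ := (x.1 * y.1 + x.2 * y.2, x.1 * y.2 + x.2 * y.1 + x.2 * y.2)

theorem ev_mul (x y : ℤ × ℤ) : ev (mulZ x y) = ev x * ev y := by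
  simp only [ev, mulZ]
  push_cast
  linear_combination (-(x.2 : ℝ) * y.2) * Real.goldenRatio_sq

theorem ev_add (x y : ℤ × ℤ) : ev (x + y) = ev x + ev y := by
  simp only [ev, Prod.fst_add, Prod.snd_add]
  push_cast
  ring

/-- Dot product of vectors with entries `m + n φ`. -/
def dotZ (x y : Fin 3 → ℤ × ℤ) : ℤ × ℤ := mulZ (x 0) (y 0) + mulZ (x 1) (y 1) + mulZ (x 2) (y 2)

theorem ev_dot (x y : Fin 3 → ℤ × ℤ) : ev (dotZ x y) = (ev ∘ x) ⬝ᵥ (ev ∘ y) := by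
  simp [dotZ, ev_add, ev_mul, dotProduct, Fin.sum_univ_three]

/-- Facet normals of the regular dodecahedron. -/
def aZ : Vtx → Fin 3 → ℤ × ℤ
  | .N => ![(0, 0), (0, 1), (1, 0)]
  | .S => ![(0, 0), (0, -1), (-1, 0)]
  | .p a => ![![(0, 1), (1, 0), (0, 0)], ![(1, 0), (0, 0), (0, 1)], ![(-1, 0), (0, 0), (0, 1)],
      ![(0, -1), (1, 0), (0, 0)], ![(0, 0), (0, 1), (-1, 0)]] a
  | .r a => ![![(0, 1), (-1, 0), (0, 0)], ![(0, 0), (0, -1), (1, 0)], ![(0, -1), (-1, 0), (0, 0)],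
      ![(-1, 0), (0, 0), (0, -1)], ![(1, 0), (0, 0), (0, -1)]] a

/-- Vertices of the regular dodecahedron. -/
def vZ (j : Fc) : Fin 3 → ℤ × ℤ :=
  ![![![(1, 0), (1, 0), (1, 0)], ![(0, 0), (-1, 1), (0, 1)], ![(-1, 0), (1, 0), (1, 0)],
      ![(1, -1), (0, 1), (0, 0)], ![(-1, 1), (0, 1), (0, 0)]],
    ![![(0, 1), (0, 0), (-1, 1)], ![(0, 0), (1, -1), (0, 1)], ![(0, -1), (0, 0), (-1, 1)],
      ![(-1, 0), (1, 0), (-1, 0)], ![(1, 0), (1, 0), (-1, 0)]],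
    ![![(1, 0), (-1, 0), (1, 0)], ![(-1, 0), (-1, 0), (1, 0)], ![(0, -1), (0, 0), (1, -1)],
      ![(0, 0), (-1, 1), (0, -1)], ![(0, 1), (0, 0), (1, -1)]],
    ![![(-1, 1), (0, -1), (0, 0)], ![(1, -1), (0, -1), (0, 0)], ![(-1, 0), (-1, 0), (-1, 0)],
      ![(0, 0), (1, -1), (0, -1)], ![(1, 0), (-1, 0), (-1, 0)]]] j.1 j.2

theorem dot_table : ∀ i j, (inc i j → dotZ (aZ i) (vZ j) = (1, 1)) ∧
    (¬ inc i j → dotZ (aZ i) (vZ j) = (-1, 1) ∨ dotZ (aZ i) (vZ j) = (1, -1) ∨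
      dotZ (aZ i) (vZ j) = (-1, -1)) := by
  decide +kernel

theorem good_regular : Good (fun j => ev ∘ vZ j) (fun i => ev ∘ aZ i) (fun _ => ev (1, 1)) := by
  intro i j
  have hp := Real.goldenRatio_pos
  constructor
  · intro h
    rw [← ev_dot, (dot_table i j).1 h]
  · intro h
    rw [← ev_dot]
    rcases (dot_table i j).2 h with h | h | h <;> rw [h] <;> simp only [ev] <;> push_cast <;>
      linarith

theorem vZ_form : ∀ j, ∃ s ∈ [(1 : ℤ), -1], ∃ t ∈ [(1 : ℤ), -1], ∃ u ∈ [(1 : ℤ), -1],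
    vZ j = ![(s, 0), (t, 0), (u, 0)] ∨ vZ j = ![(0, 0), (-s, s), (0, t)] ∨
    vZ j = ![(-s, s), (0, t), (0, 0)] ∨ vZ j = ![(0, t), (0, 0), (-s, s)] := by
  decide +kernel

theorem form_vZ : ∀ s ∈ [(1 : ℤ), -1], ∀ t ∈ [(1 : ℤ), -1], ∀ u ∈ [(1 : ℤ), -1],
    (∃ j, vZ j = ![(s, 0), (t, 0), (u, 0)]) ∧ (∃ j, vZ j = ![(0, 0), (-s, s), (0, t)]) ∧
    (∃ j, vZ j = ![(-s, s), (0, t), (0, 0)]) ∧ (∃ j, vZ j = ![(0, t), (0, 0), (-s, s)]) := by
  decide +kernel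

theorem ev_inv (s : ℤ) : ev (-s, s) = s / Real.goldenRatio := by
  rw [eq_div_iff Real.goldenRatio_ne_zero]
  simp only [ev]
  push_cast
  linear_combination (s : ℝ) * Real.goldenRatio_sq

theorem ev_forms (s t u : ℤ) :
    ev ∘ ![(s, 0), (t, 0), (u, 0)] = ![(s : ℝ), t, u] ∧
    ev ∘ ![(0, 0), (-s, s), (0, t)] = ![0, s / Real.goldenRatio, t * Real.goldenRatio] ∧
    ev ∘ ![(-s, s), (0, t), (0, 0)] = ![s / Real.goldenRatio, t * Real.goldenRatio, 0] ∧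
    ev ∘ ![(0, t), (0, 0), (-s, s)] = ![t * Real.goldenRatio, 0, s / Real.goldenRatio] := by
  refine ⟨?_, ?_, ?_, ?_⟩ <;> ext k <;> fin_cases k <;> simp [← ev_inv] <;> simp [ev]

theorem regular_eq : regularDodecahedron = convexHull ℝ (Set.range fun j => ev ∘ vZ j) := by
  unfold regularDodecahedron
  congr 1
  ext x
  constructor
  · rintro ⟨s, hs, t, ht, u, hu, hx⟩
    have key : ∀ s ∈ ({1, -1} : Set ℝ), ∃ s' ∈ [(1 : ℤ), -1], s = s' := by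
      rintro s (rfl | rfl)
      · exact ⟨1, by simp, by simp⟩
      · exact ⟨-1, by simp, by simp⟩
    obtain ⟨s, hs', rfl⟩ := key s hs
    obtain ⟨t, ht', rfl⟩ := key t ht
    obtain ⟨u, hu', rfl⟩ := key u hu
    obtain ⟨⟨j1, h1⟩, ⟨j2, h2⟩, ⟨j3, h3⟩, ⟨j4, h4⟩⟩ := form_vZ s hs' t ht' u hu'
    obtain ⟨e1, e2, e3, e4⟩ := ev_forms s t u
    rcases hx with rfl | rfl | rfl | rfl
    · exact ⟨j1, by simp only [h1, e1]⟩
    · exact ⟨j2, by simp only [h2, e2]⟩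
    · exact ⟨j3, by simp only [h3, e3]⟩
    · exact ⟨j4, by simp only [h4, e4]⟩
  · rintro ⟨j, rfl⟩
    obtain ⟨s, hs, t, ht, u, hu, h⟩ := vZ_form j
    have key : ∀ s ∈ [(1 : ℤ), -1], (s : ℝ) ∈ ({1, -1} : Set ℝ) := by
      intro s hs
      simp only [List.mem_cons, List.not_mem_nil, or_false] at hs
      rcases hs with rfl | rfl <;> simp
    obtain ⟨e1, e2, e3, e4⟩ := ev_forms s t u
    refine ⟨s, key s hs, t, key t ht, u, key u hu, ?_⟩
    rcases h with h | h | h | h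
    · exact Or.inl (by simp only [h, e1])
    · exact Or.inr (Or.inl (by simp only [h, e2]))
    · exact Or.inr (Or.inr (Or.inl (by simp only [h, e3])))
    · exact Or.inr (Or.inr (Or.inr (by simp only [h, e4])))

theorem isDodecahedron_iff (P : Set V3) :
    IsDodecahedron P ↔ ∃ v a b, Good v a b ∧ P = convexHull ℝ (Set.range v) := by
  obtain ⟨e⟩ := good_regular.orderIso
  rw [← regular_eq] at e
  constructor
  · rintro ⟨hP, ⟨f⟩⟩
    exact good_of_orderIso hP (f.trans e)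
  · rintro ⟨v, a, b, h, rfl⟩
    classical
    obtain ⟨f⟩ := h.orderIso
    exact ⟨⟨Finset.univ.image v, by simp⟩, ⟨f.trans e.symm⟩⟩

end Pool.Agent.P.MP_bfbd14_co
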