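import Pool.Agent.P.MP_bfbd14_co.Comb

/-! Sign patterns of discrete harmonic functions on the icosahedron minus a vertex. -/

set_option autoImplicit false

namespace Pool.Agent.P.MP_bfbd14_co

open Vtx

/-- Interior edges of the icosahedron minus the vertex `N`. -/
abbrev Ed := Fin 4 × Fin 5

/-- First endpoint of an interior edge. -/
def src (e : Ed) : Vtx := ![r e.2, r e.2, r e.2, S] e.1

/-- Second endpoint of an interior edge. -/
def tgt (e : Ed) : Vtx := ![p e.2, p (e.2 + 1), r (e.2 + 1), r e.2] e.1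

/-- Weak form of harmonicity at the six interior vertices. -/
def Harm (ω : Ed → ℝ) (g : Vtx → ℝ) : Prop :=
  ∀ χ : Vtx → ℝ, χ N = 0 → (∀ a, χ (p a) = 0) →
    ∑ e, ω e * ((χ (src e) - χ (tgt e)) * (g (src e) - g (tgt e))) = 0

theorem Harm.neg {ω : Ed → ℝ} {g : Vtx → ℝ} (h : Harm ω g) : Harm ω (fun v => -g v) := by
  intro χ h1 h2
  have := h χ h1 h2
  rw [← neg_eq_zero, ← Finset.sum_neg_distrib] at this
  rw [← this]
  exact Finset.sum_congr rfl fun e _ => by ring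

/-- Sets of interior vertices with the list of their cut edges. -/
def cuts : List (List Vtx × List (Vtx × Vtx)) :=
  [([S],
    [(S, r 0), (S, r 1), (S, r 2), (S, r 3), (S, r 4)]),
   ([r 4],
    [(r 4, r 3), (r 4, p 4), (r 4, p 0), (r 4, r 0), (r 4, S)]),
   ([r 3],
    [(r 3, r 2), (r 3, p 3), (r 3, p 4), (r 3, r 4), (r 3, S)]),
   ([r 0],
    [(r 0, p 0), (r 0, p 1), (r 0, r 1), (r 0, S), (r 0, r 4)]),
   ([r 1],
    [(r 1, r 0), (r 1, p 1), (r 1, p 2), (r 1, r 2), (r 1, S)]),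
   ([r 2],
    [(r 2, r 1), (r 2, p 2), (r 2, p 3), (r 2, r 3), (r 2, S)]),
   ([r 2, r 3, r 4, S],
    [(S, r 0), (r 2, r 1), (S, r 1), (r 2, p 2), (r 2, p 3), (r 3, p 3), (r 3, p 4), (r 4, p 4), (r 4, p 0), (r 4, r 0)]),
   ([r 0, r 1, r 4, S],
    [(r 0, p 0), (r 0, p 1), (r 1, p 1), (r 1, p 2), (r 1, r 2), (S, r 2), (r 4, r 3), (S, r 3), (r 4, p 4), (r 4, p 0)]),
   ([r 1, r 2, S],
    [(r 1, r 0), (S, r 0), (r 1, p 1), (r 1, p 2), (r 2, p 2), (r 2, p 3), (r 2, r 3), (S, r 3), (S, r 4)]),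
   ([r 0, r 3, r 4, S],
    [(r 0, p 0), (r 0, p 1), (r 0, r 1), (S, r 1), (r 3, r 2), (S, r 2), (r 3, p 3), (r 3, p 4), (r 4, p 4), (r 4, p 0)]),
   ([r 0, r 1, r 2, r 3, S],
    [(r 0, p 0), (r 0, p 1), (r 1, p 1), (r 1, p 2), (r 2, p 2), (r 2, p 3), (r 3, p 3), (r 3, p 4), (r 3, r 4), (r 0, r 4), (S, r 4)]),
   ([r 0, r 1, S],
    [(r 0, p 0), (r 0, p 1), (r 1, p 1), (r 1, p 2), (r 1, r 2), (S, r 2), (S, r 3), (r 0, r 4), (S, r 4)]),
   ([r 2, r 3, S],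
    [(S, r 0), (r 2, r 1), (S, r 1), (r 2, p 2), (r 2, p 3), (r 3, p 3), (r 3, p 4), (r 3, r 4), (S, r 4)]),
   ([r 4, S],
    [(S, r 0), (S, r 1), (S, r 2), (r 4, r 3), (S, r 3), (r 4, p 4), (r 4, p 0), (r 4, r 0)]),
   ([r 1, r 3, S],
    [(r 1, r 0), (S, r 0), (r 1, p 1), (r 1, p 2), (r 1, r 2), (r 3, r 2), (S, r 2), (r 3, p 3), (r 3, p 4), (r 3, r 4), (S, r 4)]),
   ([r 0, r 2, S],
    [(r 0, p 0), (r 0, p 1), (r 0, r 1), (r 2, r 1), (S, r 1), (r 2, p 2), (r 2, p 3), (r 2, r 3), (S, r 3), (r 0, r 4), (S, r 4)]),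
   ([r 1, r 2, r 3],
    [(r 1, r 0), (r 1, p 1), (r 1, p 2), (r 1, S), (r 2, p 2), (r 2, p 3), (r 2, S), (r 3, p 3), (r 3, p 4), (r 3, r 4), (r 3, S)]),
   ([r 0, r 3, r 4],
    [(r 0, p 0), (r 0, p 1), (r 0, r 1), (r 0, S), (r 3, r 2), (r 3, p 3), (r 3, p 4), (r 3, S), (r 4, p 4), (r 4, p 0), (r 4, S)]),
   ([r 0, r 1, r 2],
    [(r 0, p 0), (r 0, p 1), (r 0, S), (r 1, p 1), (r 1, p 2), (r 1, S), (r 2, p 2), (r 2, p 3), (r 2, r 3), (r 2, S), (r 0, r 4)]),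
   ([r 0, r 1, r 2, r 3, r 4, S],
    [(r 0, p 0), (r 0, p 1), (r 1, p 1), (r 1, p 2), (r 2, p 2), (r 2, p 3), (r 3, p 3), (r 3, p 4), (r 4, p 4), (r 4, p 0)]),
   ([r 2, r 3, r 4],
    [(r 2, r 1), (r 2, p 2), (r 2, p 3), (r 2, S), (r 3, p 3), (r 3, p 4), (r 3, S), (r 4, p 4), (r 4, p 0), (r 4, r 0), (r 4, S)]),
   ([r 0, r 1, r 4],
    [(r 0, p 0), (r 0, p 1), (r 0, S), (r 1, p 1), (r 1, p 2), (r 1, r 2), (r 1, S), (r 4, r 3), (r 4, p 4), (r 4, p 0), (r 4, S)]),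
   ([r 1, r 2, r 4, S],
    [(r 1, r 0), (S, r 0), (r 1, p 1), (r 1, p 2), (r 2, p 2), (r 2, p 3), (r 2, r 3), (r 4, r 3), (S, r 3), (r 4, p 4), (r 4, p 0), (r 4, r 0)]),
   ([r 3, r 4, S],
    [(S, r 0), (S, r 1), (r 3, r 2), (S, r 2), (r 3, p 3), (r 3, p 4), (r 4, p 4), (r 4, p 0), (r 4, r 0)]),
   ([r 0, r 4, S],
    [(r 0, p 0), (r 0, p 1), (r 0, r 1), (S, r 1), (S, r 2), (r 4, r 3), (S, r 3), (r 4, p 4), (r 4, p 0)]),
   ([r 0, r 3, S],
    [(r 0, p 0), (r 0, p 1), (r 0, r 1), (S, r 1), (r 3, r 2), (S, r 2), (r 3, p 3), (r 3, p 4), (r 3, r 4), (r 0, r 4), (S, r 4)]),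
   ([r 1, r 3, r 4, S],
    [(r 1, r 0), (S, r 0), (r 1, p 1), (r 1, p 2), (r 1, r 2), (r 3, r 2), (S, r 2), (r 3, p 3), (r 3, p 4), (r 4, p 4), (r 4, p 0), (r 4, r 0)]),
   ([r 0, r 2, r 4, S],
    [(r 0, p 0), (r 0, p 1), (r 0, r 1), (r 2, r 1), (S, r 1), (r 2, p 2), (r 2, p 3), (r 2, r 3), (r 4, r 3), (S, r 3), (r 4, p 4), (r 4, p 0)]),
   ([r 1, S],
    [(r 1, r 0), (S, r 0), (r 1, p 1), (r 1, p 2), (r 1, r 2), (S, r 2), (S, r 3), (S, r 4)]),
   ([r 2, r 4, S],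
    [(S, r 0), (r 2, r 1), (S, r 1), (r 2, p 2), (r 2, p 3), (r 2, r 3), (r 4, r 3), (S, r 3), (r 4, p 4), (r 4, p 0), (r 4, r 0)]),
   ([r 1, r 2, r 3, r 4, S],
    [(r 1, r 0), (S, r 0), (r 1, p 1), (r 1, p 2), (r 2, p 2), (r 2, p 3), (r 3, p 3), (r 3, p 4), (r 4, p 4), (r 4, p 0), (r 4, r 0)]),
   ([r 0, r 1, r 2, r 4, S],
    [(r 0, p 0), (r 0, p 1), (r 1, p 1), (r 1, p 2), (r 2, p 2), (r 2, p 3), (r 2, r 3), (r 4, r 3), (S, r 3), (r 4, p 4), (r 4, p 0)]),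
   ([r 0, r 2, r 3, r 4, S],
    [(r 0, p 0), (r 0, p 1), (r 0, r 1), (r 2, r 1), (S, r 1), (r 2, p 2), (r 2, p 3), (r 3, p 3), (r 3, p 4), (r 4, p 4), (r 4, p 0)]),
   ([r 0, r 1, r 3, S],
    [(r 0, p 0), (r 0, p 1), (r 1, p 1), (r 1, p 2), (r 1, r 2), (r 3, r 2), (S, r 2), (r 3, p 3), (r 3, p 4), (r 3, r 4), (r 0, r 4), (S, r 4)])]

/-- Correctness of a cut list. -/
def CutOK (c : List Vtx × List (Vtx × Vtx)) : Prop :=
  N ∉ c.1 ∧ (∀ a, p a ∉ c.1) ∧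
  (∀ e, (src e ∈ c.1 → tgt e ∉ c.1 → (src e, tgt e) ∈ c.2) ∧
    (tgt e ∈ c.1 → src e ∉ c.1 → (tgt e, src e) ∈ c.2)) ∧
  ∀ x ∈ c.2, x.1 ∈ c.1 ∧ x.2 ∉ c.1 ∧ ∃ e, x = (src e, tgt e) ∨ x = (tgt e, src e)

set_option synthInstance.maxSize 4000 in
instance cutDec (c : List Vtx × List (Vtx × Vtx)) : Decidable (CutOK c) := by
  unfold CutOK; infer_instance

theorem cuts_ok : ∀ c ∈ cuts, CutOK c := by decide +kernel

theorem cut_sound {ω : Ed → ℝ} (hω : ∀ e, 0 < ω e) {g : Vtx → ℝ} (hg : Harm ω g)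
    {c : List Vtx × List (Vtx × Vtx)} (hc : CutOK c) (hs : ∀ x ∈ c.2, 0 ≤ g x.1 ∧ g x.2 ≤ 0) :
    ∀ x ∈ c.2, g x.1 = 0 ∧ g x.2 = 0 := by
  obtain ⟨h1, h2, h3, h4⟩ := hc
  let χ : Vtx → ℝ := fun v => if v ∈ c.1 then 1 else 0
  have h0 := hg χ (by simp [χ, h1]) (fun a => by simp [χ, h2 a])
  have hnn : ∀ e ∈ (Finset.univ : Finset Ed),
      0 ≤ ω e * ((χ (src e) - χ (tgt e)) * (g (src e) - g (tgt e))) := by
    intro e _
    apply mul_nonneg (hω e).le
    by_cases a : src e ∈ c.1 <;> by_cases b : tgt e ∈ c.1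
    · simp [χ, a, b]
    · have := hs _ ((h3 e).1 a b)
      simp only [χ, a, b, if_true, if_false] at this ⊢
      linarith [this.1, this.2]
    · have := hs _ ((h3 e).2 b a)
      simp only [χ, a, b, if_true, if_false] at this ⊢
      linarith [this.1, this.2]
    · simp [χ, a, b]
  have hz := (Finset.sum_eq_zero_iff_of_nonneg hnn).1 h0
  intro x hx
  obtain ⟨a, b, e, he⟩ := h4 x hx
  have h5 := (mul_eq_zero.1 (hz e (Finset.mem_univ _))).resolve_left (hω e).ne'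
  obtain ⟨s1, s2⟩ := hs x hx
  rcases he with rfl | rfl
  · simp only [χ, a, b, if_true, if_false] at h5 s1 s2 a b ⊢
    constructor <;> linarith
  · simp only [χ, a, b, if_true, if_false] at h5 s1 s2 a b ⊢
    constructor <;> linarith

/-- Nonnegative sign. -/
def nn : SignType → Bool
  | .neg => false
  | _ => true

/-- Nonpositive sign. -/
def np : SignType → Bool
  | .pos => false
  | _ => true

/-- Zero sign. -/
def zz : SignType → Bool
  | .zero => true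
  | _ => false

theorem nn_iff (x : ℝ) : nn (SignType.sign x) = true ↔ 0 ≤ x := by
  rcases lt_trichotomy x 0 with h | h | h
  · rw [sign_neg h]; exact ⟨fun k => absurd k (by decide), fun k => absurd k (not_le.2 h)⟩
  · rw [h, sign_zero]; exact ⟨fun _ => le_rfl, fun _ => rfl⟩
  · rw [sign_pos h]; exact ⟨fun _ => h.le, fun _ => rfl⟩

theorem np_iff (x : ℝ) : np (SignType.sign x) = true ↔ x ≤ 0 := by
  rcases lt_trichotomy x 0 with h | h | h
  · rw [sign_neg h]; exact ⟨fun _ => h.le, fun _ => rfl⟩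
  · rw [h, sign_zero]; exact ⟨fun _ => le_rfl, fun _ => rfl⟩
  · rw [sign_pos h]; exact ⟨fun k => absurd k (by decide), fun k => absurd k (not_le.2 h)⟩

theorem zz_iff (x : ℝ) : zz (SignType.sign x) = true ↔ x = 0 := by
  rcases lt_trichotomy x 0 with h | h | h
  · rw [sign_neg h]; exact ⟨fun k => absurd k (by decide), fun k => absurd k h.ne⟩
  · rw [h, sign_zero]; exact ⟨fun _ => rfl, fun _ => rfl⟩
  · rw [sign_pos h]; exact ⟨fun k => absurd k (by decide), fun k => absurd k h.ne'⟩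

/-- Selection of one of five signs. -/
def sel (x0 x1 x2 x3 x4 : SignType) : Fin 5 → SignType
  | 0 => x0
  | 1 => x1
  | 2 => x2
  | 3 => x3
  | 4 => x4

/-- A sign pattern from its eleven values. -/
def mk (p0 p1 p2 p3 p4 r0 r1 r2 r3 r4 s : SignType) : Vtx → SignType
  | .N => 0
  | .S => s
  | .p a => sel p0 p1 p2 p3 p4 a
  | .r a => sel r0 r1 r2 r3 r4 a

/-- A cut on which the sign pattern is impossible for a harmonic function. -/
def viol (σ : Vtx → SignType) (K : List (Vtx × Vtx)) : Bool :=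
  (K.all (fun x => nn (σ x.1) && np (σ x.2)) || K.all (fun x => np (σ x.1) && nn (σ x.2))) &&
    K.any (fun x => !(zz (σ x.1) && zz (σ x.2)))

/-- Sign condition for four points in convex position. -/
def quad (x y z w : SignType) : Bool :=
  !((nn x && nn z && np y && np w) || (np x && np z && nn y && nn w)) ||
    (zz x && zz y && zz z && zz w)

/-- Sign conditions on a strictly convex pentagon. -/
def bd (p0 p1 p2 p3 p4 : SignType) : Bool :=
  !(zz p0 && zz p1 && zz p2) && quad p0 p1 p2 p3 && quad p0 p1 p2 p4 && quad p0 p1 p3 p4 &&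
    quad p0 p2 p3 p4 && quad p1 p2 p3 p4

/-- The degenerate patterns to be excluded. -/
def trig (p0 p1 p2 p3 p4 r0 r1 r2 r3 r4 s : SignType) : Bool :=
  ((zz p0 && zz p1 || zz p1 && zz p2 || zz p2 && zz p3 || zz p3 && zz p4 || zz p4 && zz p0) &&
    (zz r0 || zz r1 || zz r2 || zz r3 || zz r4)) ||
  (zz r0 && zz r1 && (zz p1 || zz s)) || (zz r1 && zz r2 && (zz p2 || zz s)) ||
  (zz r2 && zz r3 && (zz p3 || zz s)) || (zz r3 && zz r4 && (zz p4 || zz s)) ||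
  (zz r4 && zz r0 && (zz p0 || zz s))

theorem sign_check : ∀ p0 p1 p2 p3 p4, bd p0 p1 p2 p3 p4 = true → ∀ r0 r1 r2 r3 r4 s,
    trig p0 p1 p2 p3 p4 r0 r1 r2 r3 r4 s = true →
    cuts.any (fun c => viol (mk p0 p1 p2 p3 p4 r0 r1 r2 r3 r4 s) c.2) = true := by
  decide +kernel

theorem quad_ok {x y z w a b c d : ℝ} (ha : 0 < a) (hb : 0 < b) (hc : 0 < c) (hd : 0 < d)
    (h : a * x + c * z = b * y + d * w) :
    quad (SignType.sign x) (SignType.sign y) (SignType.sign z) (SignType.sign w) = true := by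
  simp only [quad, Bool.or_eq_true, Bool.not_eq_true', Bool.and_eq_true, zz_iff,
    ← Bool.not_eq_true, nn_iff, np_iff]
  rw [or_iff_not_imp_left, not_not]
  rintro (⟨⟨⟨h1, h2⟩, h3⟩, h4⟩ | ⟨⟨⟨h1, h2⟩, h3⟩, h4⟩)
  · have a1 := mul_nonneg ha.le h1
    have a2 := mul_nonneg hc.le h2
    have a3 := mul_nonpos_of_nonneg_of_nonpos hb.le h3
    have a4 := mul_nonpos_of_nonneg_of_nonpos hd.le h4
    refine ⟨⟨⟨(mul_eq_zero.1 (by linarith)).resolve_left ha.ne',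
      (mul_eq_zero.1 (by linarith)).resolve_left hb.ne'⟩,
      (mul_eq_zero.1 (by linarith)).resolve_left hc.ne'⟩,
      (mul_eq_zero.1 (by linarith)).resolve_left hd.ne'⟩
  · have a1 := mul_nonpos_of_nonneg_of_nonpos ha.le h1
    have a2 := mul_nonpos_of_nonneg_of_nonpos hc.le h2
    have a3 := mul_nonneg hb.le h3
    have a4 := mul_nonneg hd.le h4
    refine ⟨⟨⟨(mul_eq_zero.1 (by linarith)).resolve_left ha.ne',
      (mul_eq_zero.1 (by linarith)).resolve_left hb.ne'⟩,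
      (mul_eq_zero.1 (by linarith)).resolve_left hc.ne'⟩,
      (mul_eq_zero.1 (by linarith)).resolve_left hd.ne'⟩

/-- Non-degeneracy of harmonic functions whose boundary values come from a convex pentagon. -/
theorem harm_nondeg {ω : Ed → ℝ} (hω : ∀ e, 0 < ω e) {g : Vtx → ℝ} (hg : Harm ω g)
    {α β γ : ℝ} (h1 : 0 < γ) (h2 : 0 < α + β) (h3 : β + γ < 0)
    (e3 : g (p 3) = g (p 0) - g (p 1) + g (p 2))
    (e4 : g (p 4) = α * g (p 0) + β * g (p 1) + γ * g (p 2))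
    (hne : ¬ (g (p 0) = 0 ∧ g (p 1) = 0 ∧ g (p 2) = 0)) :
    (∀ a b, ¬ (g (p a) = 0 ∧ g (p (a + 1)) = 0 ∧ g (r b) = 0)) ∧
    (∀ a, ¬ (g (p (a + 1)) = 0 ∧ g (r (a + 1)) = 0 ∧ g (r a) = 0)) ∧
    (∀ a, ¬ (g S = 0 ∧ g (r a) = 0 ∧ g (r (a + 1)) = 0)) := by
  have hbd : bd (SignType.sign (g (p 0))) (SignType.sign (g (p 1))) (SignType.sign (g (p 2)))
      (SignType.sign (g (p 3))) (SignType.sign (g (p 4))) = true := by
    simp only [bd, Bool.and_eq_true, Bool.not_eq_true', ← Bool.not_eq_true, zz_iff]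
    refine ⟨⟨⟨⟨⟨fun h => hne ⟨h.1.1, h.1.2, h.2⟩, ?_⟩, ?_⟩, ?_⟩, ?_⟩, ?_⟩
    · exact quad_ok one_pos one_pos one_pos one_pos (by rw [e3]; ring)
    · exact quad_ok (a := α) (b := -β) (c := γ) (by linarith) (by linarith) h1 one_pos
        (by rw [e4]; ring)
    · exact quad_ok (a := α - γ) (b := -β - γ) (c := γ) (by linarith) (by linarith) h1 one_pos
        (by rw [e3, e4]; ring)
    · exact quad_ok (a := α + β) (b := -β - γ) (c := -β) h2 (by linarith) (by linarith) one_pos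
        (by rw [e3, e4]; ring)
    · exact quad_ok (a := α + β) (b := α - γ) (c := α) h2 (by linarith) (by linarith) one_pos
        (by rw [e3, e4]; ring)
  have hno : ¬ trig (SignType.sign (g (p 0))) (SignType.sign (g (p 1))) (SignType.sign (g (p 2)))
      (SignType.sign (g (p 3))) (SignType.sign (g (p 4))) (SignType.sign (g (r 0)))
      (SignType.sign (g (r 1))) (SignType.sign (g (r 2))) (SignType.sign (g (r 3)))
      (SignType.sign (g (r 4))) (SignType.sign (g S)) = true := by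
    intro ht
    have := sign_check _ _ _ _ _ hbd _ _ _ _ _ _ ht
    rw [List.any_eq_true] at this
    obtain ⟨c, hc, hv⟩ := this
    have hok := cuts_ok c hc
    have hmk : ∀ v, v ≠ N → mk (SignType.sign (g (p 0))) (SignType.sign (g (p 1)))
        (SignType.sign (g (p 2))) (SignType.sign (g (p 3))) (SignType.sign (g (p 4)))
        (SignType.sign (g (r 0))) (SignType.sign (g (r 1))) (SignType.sign (g (r 2)))
        (SignType.sign (g (r 3))) (SignType.sign (g (r 4))) (SignType.sign (g S)) v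
        = SignType.sign (g v) := by
      rintro (_ | _ | a | a) hv
      · exact absurd rfl hv
      · rfl
      · fin_cases a <;> rfl
      · fin_cases a <;> rfl
    have hsrc : ∀ e, src e ≠ N ∧ tgt e ≠ N := by decide
    have hN : ∀ x ∈ c.2, x.1 ≠ N ∧ x.2 ≠ N := by
      intro x hx
      obtain ⟨-, -, e, rfl | rfl⟩ := hok.2.2.2 x hx
      · exact hsrc e
      · exact (hsrc e).symm
    simp only [viol, Bool.and_eq_true, Bool.or_eq_true, List.all_eq_true, List.any_eq_true,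
      Bool.not_eq_true', ← Bool.not_eq_true] at hv
    obtain ⟨hv1, x, hx, hv2⟩ := hv
    rw [hmk _ (hN x hx).1, hmk _ (hN x hx).2, zz_iff, zz_iff] at hv2
    apply hv2
    rcases hv1 with hv1 | hv1
    · refine cut_sound hω hg hok (fun y hy => ?_) x hx
      have := hv1 y hy
      rwa [hmk _ (hN y hy).1, hmk _ (hN y hy).2, nn_iff, np_iff] at this
    · have := cut_sound hω hg.neg hok (fun y hy => by
        have := hv1 y hy
        rw [hmk _ (hN y hy).1, hmk _ (hN y hy).2, nn_iff, np_iff] at this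
        exact ⟨neg_nonneg.2 this.1, neg_nonpos.2 this.2⟩) x hx
      exact ⟨neg_eq_zero.1 this.1, neg_eq_zero.1 this.2⟩
  simp only [trig, Bool.or_eq_true, Bool.and_eq_true, zz_iff] at hno
  refine ⟨fun a b h => hno ?_, fun a h => hno ?_, fun a h => hno ?_⟩
  · obtain ⟨a1, a2, a3⟩ := h
    fin_cases a <;> fin_cases b <;> simp_all
  · obtain ⟨a1, a2, a3⟩ := h
    fin_cases a <;> simp_all
  · obtain ⟨a1, a2, a3⟩ := h
    fin_cases a <;> simp_all

end Pool.Agent.P.MP_bfbd14_co
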