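import Pool.Agent.P.MP_bfbd14_co.Signs

/-! Tutte embedding and Maxwell-Cremona lifting for the icosahedron minus a vertex. -/

set_option autoImplicit false

open Matrix Topology

namespace Pool.Agent.P.MP_bfbd14_co

open Vtx

/-! ### The weighted Laplacian -/

/-- Interior vertices. -/
def intr : Vtx → Bool
  | .S => true
  | .r _ => true
  | _ => false

/-- Signed incidence of a vertex and an edge. -/
def dl (v : Vtx) (e : Ed) : ℝ := (if src e = v then 1 else 0) - (if tgt e = v then 1 else 0)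

theorem sum_dl (g : Vtx → ℝ) (e : Ed) : ∑ v, dl v e * g v = g (src e) - g (tgt e) := by
  simp [dl, sub_mul, Finset.sum_sub_distrib]

/-- Laplacian rows at interior vertices and identity rows elsewhere. -/
def Lap (ω : Ed → ℝ) : Matrix Vtx Vtx ℝ := Matrix.of fun v w =>
  if intr v then ∑ e, ω e * (dl v e * dl w e) else if v = w then 1 else 0

theorem Lap_mulVec (ω : Ed → ℝ) (g : Vtx → ℝ) (v : Vtx) : (Lap ω *ᵥ g) v =
    if intr v then ∑ e, ω e * (dl v e * (g (src e) - g (tgt e))) else g v := by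
  simp only [Lap, mulVec, dotProduct, Matrix.of_apply]
  split_ifs
  · simp only [Finset.sum_mul]
    rw [Finset.sum_comm]
    refine Finset.sum_congr rfl fun e _ => ?_
    rw [← sum_dl, Finset.mul_sum, Finset.mul_sum]
    exact Finset.sum_congr rfl fun w _ => by ring
  · simp

theorem harm_iff (ω : Ed → ℝ) (g : Vtx → ℝ) :
    Harm ω g ↔ ∀ v, intr v = true → (Lap ω *ᵥ g) v = 0 := by
  constructor
  · intro h v hv
    rw [Lap_mulVec, if_pos hv]
    have := h (fun w => if w = v then 1 else 0)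
      (by rcases v with _ | _ | a | a <;> simp [intr] at hv ⊢)
      (by rcases v with _ | _ | a | a <;> simp [intr] at hv ⊢)
    exact this
  · intro h χ h1 h2
    have e1 : ∑ e, ω e * ((χ (src e) - χ (tgt e)) * (g (src e) - g (tgt e)))
        = ∑ v, χ v * ∑ e, ω e * (dl v e * (g (src e) - g (tgt e))) := by
      simp only [Finset.mul_sum]
      rw [Finset.sum_comm]
      refine Finset.sum_congr rfl fun e _ => ?_
      rw [← sum_dl χ, Finset.sum_mul, Finset.mul_sum]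
      exact Finset.sum_congr rfl fun w _ => by ring
    rw [e1]
    refine Finset.sum_eq_zero fun v _ => ?_
    by_cases hv : intr v = true
    · have := h v hv
      rw [Lap_mulVec, if_pos hv] at this
      rw [this, mul_zero]
    · rcases v with _ | _ | a | a
      · rw [h1, zero_mul]
      · exact absurd rfl hv
      · rw [h2, zero_mul]
      · exact absurd rfl hv

theorem Lap_det_ne {ω : Ed → ℝ} (hω : ∀ e, 0 < ω e) : (Lap ω).det ≠ 0 := by
  intro h0
  obtain ⟨g, hg, hz⟩ := Matrix.exists_mulVec_eq_zero_iff.2 h0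
  have hb : ∀ v, intr v = false → g v = 0 := by
    intro v hv
    have := congrFun hz v
    rwa [Lap_mulVec, if_neg (by simp [hv])] at this
  have hh : Harm ω g := (harm_iff ω g).2 fun v _ => congrFun hz v
  have h1 := hh g (hb _ rfl) (fun a => hb _ rfl)
  have h2 := (Finset.sum_eq_zero_iff_of_nonneg (fun e _ =>
    mul_nonneg (hω e).le (mul_self_nonneg _))).1 h1
  have h3 : ∀ e, g (src e) = g (tgt e) := fun e =>
    sub_eq_zero.1 (mul_self_eq_zero.1 ((mul_eq_zero.1 (h2 e (Finset.mem_univ _))).resolve_left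
      (hω e).ne'))
  have hr : ∀ a, g (r a) = 0 := fun a => (h3 (0, a)).trans (hb _ rfl)
  apply hg
  ext v
  rcases v with _ | _ | a | a
  · exact hb _ rfl
  · exact (h3 (3, 0)).trans (hr 0)
  · exact hb _ rfl
  · exact hr a

theorem harm_explicit (ω : Ed → ℝ) (g : Vtx → ℝ) : Harm ω g ↔
    (∀ a, ω (0, a + 1) * (g (p (a + 1)) - g (r (a + 1)))
      + ω (1, a + 1) * (g (p (a + 1 + 1)) - g (r (a + 1)))
      + ω (2, a + 1) * (g (r (a + 1 + 1)) - g (r (a + 1))) + ω (2, a) * (g (r a) - g (r (a + 1)))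
      + ω (3, a + 1) * (g S - g (r (a + 1))) = 0) ∧
    ∑ a, ω (3, a) * (g (r a) - g S) = 0 := by
  constructor
  · intro h
    refine ⟨fun a => ?_, ?_⟩
    · have := h (fun w => if w = r (a + 1) then 1 else 0) (by simp) (by simp)
      fin_cases a <;>
        simp [Fintype.sum_prod_type, Fin.sum_univ_four, Fin.sum_univ_five, src, tgt] at this ⊢ <;>
        linarith
    · have := h (fun w => if w = S then 1 else 0) (by simp) (by simp)
      simp [Fintype.sum_prod_type, Fin.sum_univ_four, Fin.sum_univ_five, src, tgt] at this ⊢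
      linarith
  · rintro ⟨h1, h2⟩ χ _ hp
    have a0 := h1 0
    have a1 := h1 1
    have a2 := h1 2
    have a3 := h1 3
    have a4 := h1 4
    simp [Fintype.sum_prod_type, Fin.sum_univ_four, Fin.sum_univ_five, src, tgt, hp]
      at a0 a1 a2 a3 a4 h2 ⊢
    linear_combination (-χ (r 1)) * a0 - χ (r 2) * a1 - χ (r 3) * a2 - χ (r 4) * a3
      - χ (r 0) * a4 - χ S * h2

/-! ### Three-dimensional determinants -/

/-- Cross product. -/
def cr (a b : V3) : V3 := ![a 1 * b 2 - a 2 * b 1, a 2 * b 0 - a 0 * b 2, a 0 * b 1 - a 1 * b 0]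

theorem cr0 (a b : V3) : cr a b 0 = a 1 * b 2 - a 2 * b 1 := rfl
theorem cr1 (a b : V3) : cr a b 1 = a 2 * b 0 - a 0 * b 2 := rfl
theorem cr2 (a b : V3) : cr a b 2 = a 0 * b 1 - a 1 * b 0 := rfl

theorem ext3 {x y : V3} (h0 : x 0 = y 0) (h1 : x 1 = y 1) (h2 : x 2 = y 2) : x = y := by
  ext k
  fin_cases k <;> assumption

/-- Determinant of three vectors. -/
def det3 (a b c : V3) : ℝ := cr a b ⬝ᵥ c

theorem det3_def (a b c : V3) : det3 a b c = (a 1 * b 2 - a 2 * b 1) * c 0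
    + (a 2 * b 0 - a 0 * b 2) * c 1 + (a 0 * b 1 - a 1 * b 0) * c 2 := by
  simp [det3, cr, dotProduct, Fin.sum_univ_three]

theorem cr_left (a b : V3) : cr a b ⬝ᵥ a = 0 := by
  simp [cr, dotProduct, Fin.sum_univ_three]; ring

theorem cr_right (a b : V3) : cr a b ⬝ᵥ b = 0 := by
  simp [cr, dotProduct, Fin.sum_univ_three]; ring

theorem exists_ker {a b c : V3} (h : det3 a b c = 0) :
    ∃ n : V3, n ≠ 0 ∧ n ⬝ᵥ a = 0 ∧ n ⬝ᵥ b = 0 ∧ n ⬝ᵥ c = 0 := by
  have : (Matrix.of ![a, b, c]).det = 0 := by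
    rw [Matrix.det_fin_three, ← h, det3_def]
    simp
    ring
  obtain ⟨n, hn, hz⟩ := Matrix.exists_mulVec_eq_zero_iff.2 this
  refine ⟨n, hn, ?_, ?_, ?_⟩
  · rw [dotProduct_comm]; exact congrFun hz 0
  · rw [dotProduct_comm]; exact congrFun hz 1
  · rw [dotProduct_comm]; exact congrFun hz 2

/-- A point of three-space with a height. -/
def up (y : V3) (z : ℝ) : V4 := ![y 0, y 1, y 2, z]

theorem det4_up {a b c l : V3} {za zb zc : ℝ} (d : V3) (zd : ℝ) (ha : za = l ⬝ᵥ a)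
    (hb : zb = l ⬝ᵥ b) (hc : zc = l ⬝ᵥ c) :
    det4 (up a za) (up b zb) (up c zc) (up d zd) = det3 a b c * (zd - l ⬝ᵥ d) := by
  subst ha hb hc
  simp [det4_def, det3_def, up, dotProduct, Fin.sum_univ_three]
  ring

theorem det4_top (a b c : V3) (za zb zc : ℝ) :
    det4 (up a za) (up b zb) (up c zc) (up 0 1) = det3 a b c := by
  simp [det4_def, det3_def, up]
  ring

theorem det4_top' (a b c : V3) (za zb zc : ℝ) :
    det4 (up 0 1) (up b zb) (up a za) (up c zc) = det3 a b c := by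
  simp [det4_def, det3_def, up]
  ring

/-! ### Lifting -/

/-- The jump relations of a lifting with stress `ω`. -/
structure Lift (ω : Ed → ℝ) (y : Vtx → V3) (l1 l2 l3 : Fin 5 → V3) : Prop where
  j3 : ∀ a, l3 (a + 1) = l3 a + ω (3, a + 1) • cr (y S) (y (r (a + 1)))
  j2 : ∀ a, l2 a = l3 a + ω (2, a) • cr (y (r (a + 1))) (y (r a))
  j1 : ∀ a, l1 a = l2 a + ω (1, a) • cr (y (p (a + 1))) (y (r a))
  j0 : ∀ a, l2 a = l1 (a + 1) + ω (0, a + 1) • cr (y (p (a + 1))) (y (r (a + 1)))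

/-- Heights of a lifting. -/
def hts (y : Vtx → V3) (l1 l3 : Fin 5 → V3) : Vtx → ℝ
  | .N => 1
  | .S => l3 0 ⬝ᵥ y S
  | .p a => l1 a ⬝ᵥ y (p a)
  | .r a => l3 a ⬝ᵥ y (r a)

/-- The lifted configuration. -/
def lift (y : Vtx → V3) (z : Vtx → ℝ) : Cfg := fun v => up (y v) (z v)

/-- All fifteen triangles are positively oriented. -/
def Areas (y : Vtx → V3) : Prop :=
  (∀ a, 0 < det3 (y (p a)) (y (p (a + 1))) (y (r a))) ∧
  (∀ a, 0 < det3 (y (p (a + 1))) (y (r (a + 1))) (y (r a))) ∧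
  (∀ a, 0 < det3 (y S) (y (r a)) (y (r (a + 1))))

theorem f41 : ∀ a : Fin 5, a + 4 + 1 = a := by decide
theorem f14 : ∀ a : Fin 5, a + 1 + 4 = a := by decide
theorem f11 : ∀ a : Fin 5, a + 1 + 1 = a + 2 := by decide
theorem f42 : ∀ a : Fin 5, a + 4 + 2 = a + 1 := by decide

section

variable {ω : Ed → ℝ} {y : Vtx → V3} {l1 l2 l3 : Fin 5 → V3}

theorem Lift.s3 (h : Lift ω y l1 l2 l3) (a : Fin 5) : hts y l1 l3 S = l3 a ⬝ᵥ y S := by
  have k : ∀ a, l3 (a + 1) ⬝ᵥ y S = l3 a ⬝ᵥ y S := fun a => by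
    rw [h.j3, add_dotProduct, smul_dotProduct, cr_left]; simp
  have k0 : l3 1 ⬝ᵥ y S = l3 0 ⬝ᵥ y S := k 0
  have k1 : l3 2 ⬝ᵥ y S = l3 1 ⬝ᵥ y S := k 1
  have k2 : l3 3 ⬝ᵥ y S = l3 2 ⬝ᵥ y S := k 2
  have k3 : l3 4 ⬝ᵥ y S = l3 3 ⬝ᵥ y S := k 3
  show l3 0 ⬝ᵥ y S = _
  fin_cases a
  · rfl
  · exact k0.symm
  · exact (k1.trans k0).symm
  · exact (k2.trans (k1.trans k0)).symm
  · exact (k3.trans (k2.trans (k1.trans k0))).symm

theorem Lift.r3 (_h : Lift ω y l1 l2 l3) (a : Fin 5) : hts y l1 l3 (r a) = l3 a ⬝ᵥ y (r a) := rfl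

theorem Lift.r3' (h : Lift ω y l1 l2 l3) (a : Fin 5) :
    hts y l1 l3 (r (a + 1)) = l3 a ⬝ᵥ y (r (a + 1)) := by
  rw [h.r3, h.j3, add_dotProduct, smul_dotProduct, cr_right]; simp

theorem Lift.r2 (h : Lift ω y l1 l2 l3) (a : Fin 5) : hts y l1 l3 (r a) = l2 a ⬝ᵥ y (r a) := by
  rw [h.r3, h.j2, add_dotProduct, smul_dotProduct, cr_right]; simp

theorem Lift.r2' (h : Lift ω y l1 l2 l3) (a : Fin 5) :
    hts y l1 l3 (r (a + 1)) = l2 a ⬝ᵥ y (r (a + 1)) := by
  rw [h.r3', h.j2, add_dotProduct, smul_dotProduct, cr_left]; simp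

theorem Lift.p1 (_h : Lift ω y l1 l2 l3) (a : Fin 5) : hts y l1 l3 (p a) = l1 a ⬝ᵥ y (p a) := rfl

theorem Lift.p2 (h : Lift ω y l1 l2 l3) (a : Fin 5) :
    hts y l1 l3 (p (a + 1)) = l2 a ⬝ᵥ y (p (a + 1)) := by
  rw [h.p1, h.j0, add_dotProduct, smul_dotProduct, cr_left]; simp

theorem Lift.p1' (h : Lift ω y l1 l2 l3) (a : Fin 5) :
    hts y l1 l3 (p (a + 1)) = l1 a ⬝ᵥ y (p (a + 1)) := by
  rw [h.p2, h.j1, add_dotProduct, smul_dotProduct, cr_left]; simp

theorem Lift.r1 (h : Lift ω y l1 l2 l3) (a : Fin 5) : hts y l1 l3 (r a) = l1 a ⬝ᵥ y (r a) := by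
  rw [h.r2, h.j1, add_dotProduct, smul_dotProduct, cr_right]; simp

theorem Lift.D1 (h : Lift ω y l1 l2 l3) (a : Fin 5) (i : Vtx) :
    D (lift y (hts y l1 l3)) (1, a) i = det3 (y (p a)) (y (p (a + 1))) (y (r a)) *
      (hts y l1 l3 i - l1 a ⬝ᵥ y i) :=
  det4_up _ _ (h.p1 a) (h.p1' a) (h.r1 a)

theorem Lift.D2 (h : Lift ω y l1 l2 l3) (a : Fin 5) (i : Vtx) :
    D (lift y (hts y l1 l3)) (2, a) i = det3 (y (p (a + 1))) (y (r (a + 1))) (y (r a)) *
      (hts y l1 l3 i - l2 a ⬝ᵥ y i) :=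
  det4_up _ _ (h.p2 a) (h.r2' a) (h.r2 a)

theorem Lift.D3 (h : Lift ω y l1 l2 l3) (a : Fin 5) (i : Vtx) :
    D (lift y (hts y l1 l3)) (3, a) i = det3 (y S) (y (r a)) (y (r (a + 1))) *
      (hts y l1 l3 i - l3 a ⬝ᵥ y i) :=
  det4_up _ _ (h.s3 a) (h.r3 a) (h.r3' a)

theorem D0_eq {z : Vtx → ℝ} (hN : y N = 0) (hz : z N = 1) (a : Fin 5) (i : Vtx) :
    D (lift y z) (0, a) i = det3 (y (p a)) (y (p (a + 1))) (y i) := by
  rw [← det4_top' _ _ _ (z (p a)) (z (p (a + 1))) (z i), ← hN, ← hz]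
  rfl

/-- Local convexity of the lifted configuration along all thirty edges. -/
theorem Lift.local (h : Lift ω y l1 l2 l3) (hω : ∀ e, 0 < ω e) (hA : Areas y) (hN : y N = 0)
    (hP : ∀ a, 0 < det3 (y (p a)) (y (p (a + 1))) (y (p (a + 2)))) (j : Fc) (m : Fin 3) :
    0 < D (lift y (hts y l1 l3)) j (opp j m) := by
  obtain ⟨A1, A2, A3⟩ := hA
  have c10 : ∀ a, 0 < D (lift y (hts y l1 l3)) (1, a) (r (a + 1)) := by
    intro a
    rw [h.D1, h.r2', h.j1, add_dotProduct, smul_dotProduct]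
    apply mul_pos (A1 a)
    have := mul_pos (hω (1, a)) (A2 a)
    simp only [det3_def, cr, dotProduct, Fin.sum_univ_three, smul_eq_mul] at this ⊢
    simp only [Matrix.cons_val_zero, Matrix.cons_val_one, Matrix.cons_val]
    linarith
  have c11 : ∀ a, 0 < D (lift y (hts y l1 l3)) (1, a + 1) (r a) := by
    intro a
    rw [h.D1, h.r2, h.j0, add_dotProduct, smul_dotProduct]
    apply mul_pos (A1 _)
    have := mul_pos (hω (0, a + 1)) (A2 a)
    simpa [det3] using this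
  have c12 : ∀ a, 0 < D (lift y (hts y l1 l3)) (1, a) N := by
    intro a
    rw [h.D1, hN]
    simpa [hts] using A1 a
  have c20 : ∀ a, 0 < D (lift y (hts y l1 l3)) (2, a) S := by
    intro a
    rw [h.D2, h.s3 a, h.j2, add_dotProduct, smul_dotProduct]
    apply mul_pos (A2 a)
    have := mul_pos (hω (2, a)) (A3 a)
    simp only [det3_def, cr, dotProduct, Fin.sum_univ_three, smul_eq_mul] at this ⊢
    simp only [Matrix.cons_val_zero, Matrix.cons_val_one, Matrix.cons_val]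
    linarith
  have c31 : ∀ a, 0 < D (lift y (hts y l1 l3)) (3, a) (r (a + 1 + 1)) := by
    intro a
    rw [h.D3, h.r3', h.j3, add_dotProduct, smul_dotProduct]
    apply mul_pos (A3 a)
    have := mul_pos (hω (3, a + 1)) (A3 (a + 1))
    simpa [det3] using this
  have c02 : ∀ a, 0 < D (lift y (hts y l1 l3)) (0, a) (p (a + 2)) := by
    intro a
    rw [D0_eq hN rfl]
    exact hP a
  obtain ⟨k, a⟩ := j
  fin_cases k <;> fin_cases m
  · exact D_nb _ (0, a) 0 ▸ c12 a
  · have := c02 (a + 4)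
    rw [f42] at this
    exact D_nb _ (0, a) 1 ▸ this
  · exact c02 a
  · exact c10 a
  · have := c11 (a + 4)
    rw [f41] at this
    exact this
  · exact c12 a
  · exact c20 a
  · exact D_nb _ (2, a) 1 ▸ c10 a
  · exact D_nb _ (2, a) 2 ▸ c11 a
  · exact D_nb _ (3, a) 0 ▸ c20 a
  · have := c31 a
    rw [f11] at this
    exact this
  · have := c31 (a + 4)
    rw [f41] at this
    exact D_nb _ (3, a) 2 ▸ this

end

/-- The functionals on the five triangles around `S`. -/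
def L3 (ω : Ed → ℝ) (y : Vtx → V3) (l : V3) : Fin 5 → V3 :=
  ![l, l + ω (3, 1) • cr (y S) (y (r 1)),
    l + ω (3, 1) • cr (y S) (y (r 1)) + ω (3, 2) • cr (y S) (y (r 2)),
    l + ω (3, 1) • cr (y S) (y (r 1)) + ω (3, 2) • cr (y S) (y (r 2))
      + ω (3, 3) • cr (y S) (y (r 3)),
    l + ω (3, 1) • cr (y S) (y (r 1)) + ω (3, 2) • cr (y S) (y (r 2))
      + ω (3, 3) • cr (y S) (y (r 3)) + ω (3, 4) • cr (y S) (y (r 4))]

/-- The functionals on the middle triangles. -/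
def L2 (ω : Ed → ℝ) (y : Vtx → V3) (l : V3) (a : Fin 5) : V3 :=
  L3 ω y l a + ω (2, a) • cr (y (r (a + 1))) (y (r a))

/-- The functionals on the outer triangles. -/
def L1 (ω : Ed → ℝ) (y : Vtx → V3) (l : V3) (a : Fin 5) : V3 :=
  L2 ω y l a + ω (1, a) • cr (y (p (a + 1))) (y (r a))

theorem lift_of_harm {ω : Ed → ℝ} {y : Vtx → V3} (h : ∀ k, Harm ω (fun v => y v k)) (l : V3) :
    Lift ω y (L1 ω y l) (L2 ω y l) (L3 ω y l) := by
  have h0 := (harm_explicit _ _).1 (h 0)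
  have h1 := (harm_explicit _ _).1 (h 1)
  have h2 := (harm_explicit _ _).1 (h 2)
  have j3 : ∀ a, L3 ω y l (a + 1) = L3 ω y l a + ω (3, a + 1) • cr (y S) (y (r (a + 1))) := by
    intro a
    fin_cases a
    · rfl
    · rfl
    · rfl
    · rfl
    · have a0 := h0.2
      have a1 := h1.2
      have a2 := h2.2
      rw [Fin.sum_univ_five] at a0 a1 a2
      show l = l + ω (3, 1) • cr (y S) (y (r 1)) + ω (3, 2) • cr (y S) (y (r 2))
        + ω (3, 3) • cr (y S) (y (r 3)) + ω (3, 4) • cr (y S) (y (r 4))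
        + ω (3, 0) • cr (y S) (y (r 0))
      apply ext3 <;> simp only [Pi.add_apply, Pi.smul_apply, smul_eq_mul, cr0, cr1, cr2]
      · linear_combination (y S 2) * a1 - (y S 1) * a2
      · linear_combination (y S 0) * a2 - (y S 2) * a0
      · linear_combination (y S 1) * a0 - (y S 0) * a1
  refine ⟨j3, fun _ => rfl, fun _ => rfl, fun a => ?_⟩
  have a0 := h0.1 a
  have a1 := h1.1 a
  have a2 := h2.1 a
  simp only [L1, L2, j3]
  apply ext3 <;> simp only [Pi.add_apply, Pi.smul_apply, smul_eq_mul, cr0, cr1, cr2]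
  · linear_combination (y (r (a + 1)) 1) * a2 - (y (r (a + 1)) 2) * a1
  · linear_combination (y (r (a + 1)) 2) * a0 - (y (r (a + 1)) 0) * a2
  · linear_combination (y (r (a + 1)) 0) * a1 - (y (r (a + 1)) 1) * a0

theorem par_of_cr {a b : V3} (h : cr a b = 0) (hb : b 0 + b 1 + b 2 = 1) (k : Fin 3) :
    a k = (a 0 + a 1 + a 2) * b k := by
  have e0 : a 1 * b 2 - a 2 * b 1 = 0 := congrFun h 0
  have e1 : a 2 * b 0 - a 0 * b 2 = 0 := congrFun h 1
  have e2 : a 0 * b 1 - a 1 * b 0 = 0 := congrFun h 2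
  fin_cases k
  · show a 0 = (a 0 + a 1 + a 2) * b 0
    linear_combination (-a 0) * hb + e2 - e1
  · show a 1 = (a 0 + a 1 + a 2) * b 1
    linear_combination (-a 1) * hb + e0 - e2
  · show a 2 = (a 0 + a 1 + a 2) * b 2
    linear_combination (-a 2) * hb + e1 - e0

theorem Lift.harm {ω : Ed → ℝ} {y : Vtx → V3} {l1 l2 l3 : Fin 5 → V3} (h : Lift ω y l1 l2 l3)
    (hs : ∀ v, v ≠ N → y v 0 + y v 1 + y v 2 = 1) (k : Fin 3) : Harm ω (fun v => y v k) := by
  rw [harm_explicit]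
  constructor
  · intro a
    have e := h.j0 a
    rw [h.j1, h.j2, h.j2, h.j3] at e
    have e0 := congrFun e 0
    have e1 := congrFun e 1
    have e2 := congrFun e 2
    simp only [Pi.add_apply, Pi.smul_apply, smul_eq_mul, cr0, cr1, cr2] at e0 e1 e2
    have := par_of_cr (a := ω (0, a + 1) • y (p (a + 1)) + ω (1, a + 1) • y (p (a + 1 + 1))
      + ω (2, a + 1) • y (r (a + 1 + 1)) + ω (2, a) • y (r a) + ω (3, a + 1) • y S)
      (b := y (r (a + 1))) (by
        apply ext3 <;>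
          simp only [Pi.add_apply, Pi.smul_apply, smul_eq_mul, cr0, cr1, cr2, Pi.zero_apply]
        · linear_combination -e0
        · linear_combination -e1
        · linear_combination -e2) (hs _ (by simp)) k
    simp only [Pi.add_apply, Pi.smul_apply, smul_eq_mul] at this
    linear_combination this + y (r (a + 1)) k * (ω (0, a + 1) * hs (p (a + 1)) (by simp)
      + ω (1, a + 1) * hs (p (a + 1 + 1)) (by simp) + ω (2, a + 1) * hs (r (a + 1 + 1)) (by simp)
      + ω (2, a) * hs (r a) (by simp) + ω (3, a + 1) * hs S (by simp))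
  · have k0 : l3 1 = l3 0 + ω (3, 1) • cr (y S) (y (r 1)) := h.j3 0
    have k1 : l3 2 = l3 1 + ω (3, 2) • cr (y S) (y (r 2)) := h.j3 1
    have k2 : l3 3 = l3 2 + ω (3, 3) • cr (y S) (y (r 3)) := h.j3 2
    have k3 : l3 4 = l3 3 + ω (3, 4) • cr (y S) (y (r 4)) := h.j3 3
    have e : l3 0 = l3 4 + ω (3, 0) • cr (y S) (y (r 0)) := h.j3 4
    rw [k3, k2, k1, k0] at e
    have e0 := congrFun e 0
    have e1 := congrFun e 1
    have e2 := congrFun e 2
    simp only [Pi.add_apply, Pi.smul_apply, smul_eq_mul, cr0, cr1, cr2] at e0 e1 e2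
    have := par_of_cr (a := ω (3, 0) • y (r 0) + ω (3, 1) • y (r 1) + ω (3, 2) • y (r 2)
      + ω (3, 3) • y (r 3) + ω (3, 4) • y (r 4)) (b := y S) (by
        apply ext3 <;>
          simp only [Pi.add_apply, Pi.smul_apply, smul_eq_mul, cr0, cr1, cr2, Pi.zero_apply]
        · linear_combination e0
        · linear_combination e1
        · linear_combination e2) (hs _ (by simp)) k
    simp only [Pi.add_apply, Pi.smul_apply, smul_eq_mul] at this
    rw [Fin.sum_univ_five]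
    linear_combination this + y S k * (ω (3, 0) * hs (r 0) (by simp)
      + ω (3, 1) * hs (r 1) (by simp) + ω (3, 2) * hs (r 2) (by simp)
      + ω (3, 3) * hs (r 3) (by simp) + ω (3, 4) * hs (r 4) (by simp))

theorem Lift.unique {ω : Ed → ℝ} {y : Vtx → V3} {l1 l2 l3 : Fin 5 → V3} (h : Lift ω y l1 l2 l3) :
    l1 = L1 ω y (l3 0) ∧ l3 = L3 ω y (l3 0) := by
  have e3 : l3 = L3 ω y (l3 0) := by
    have k0 : l3 1 = _ := h.j3 0
    have k1 : l3 2 = _ := h.j3 1
    have k2 : l3 3 = _ := h.j3 2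
    have k3 : l3 4 = _ := h.j3 3
    rw [k0] at k1
    rw [k1] at k2
    rw [k2] at k3
    ext1 a
    fin_cases a
    · rfl
    · exact k0
    · exact k1
    · exact k2
    · exact k3
  refine ⟨?_, e3⟩
  ext1 a
  rw [h.j1, h.j2, L1, L2, ← e3]

end Pool.Agent.P.MP_bfbd14_co
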